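import Pool.Agent.Helper1.SD.Cone

set_option autoImplicit false

/-!
Gluing theorem: a self-dual cone from a pair of mutually dual cones.
-/

namespace Pool.Agent.Helper1.SD

open Matrix

/-! ### The gluing theorem -/

section SD3

theorem dot_castSucc {d : ℕ} (x y : Fin (d + 1) → ℝ) :
    x ⬝ᵥ y = ∑ i : Fin d, x i.castSucc * y i.castSucc + x (Fin.last d) * y (Fin.last d) := by
  simp [dotProduct, Fin.sum_univ_castSucc]

theorem dot_basis {d : ℕ} (x : Fin (d + 1) → ℝ) (j : Fin (d + 1)) :
    x ⬝ᵥ (Pi.single j 1 : Fin (d + 1) → ℝ) = x j := by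
  simp

/-- a vector with last coordinate zero is the combination of the first basis vectors -/
theorem eq_sum_basis {d : ℕ} (x : Fin (d + 1) → ℝ) (hx : x (Fin.last d) = 0) :
    x = ∑ i : Fin d, x i.castSucc • (Pi.single i.castSucc 1 : Fin (d + 1) → ℝ) := by
  ext j
  rw [Finset.sum_apply]
  refine Fin.lastCases ?_ (fun i => ?_) j
  · rw [hx]
    symm
    apply Finset.sum_eq_zero
    intro i _
    simp [Pi.single_apply, (Fin.castSucc_lt_last i).ne']
  · rw [Finset.sum_eq_single i]
    · simp
    · intro b _ hb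
      have : i.castSucc ≠ b.castSucc := fun h => hb ((Fin.castSucc_injective d) h).symm
      simp [Pi.single_apply, this]
    · simp

/-- vectors with nonnegative first coordinates and last coordinate zero lie in the cone -/
theorem mem_of_last_zero {d : ℕ} {A : Set (Fin (d + 1) → ℝ)}
    (h1 : ∀ i : Fin d, Pi.single i.castSucc 1 ∈ coneOf A) {x : Fin (d + 1) → ℝ}
    (hx0 : ∀ i : Fin d, 0 ≤ x i.castSucc) (hx : x (Fin.last d) = 0) : x ∈ coneOf A := by
  rw [eq_sum_basis x hx]
  exact sum_mem_coneOf _ _ (fun i _ => smul_mem_coneOf (hx0 i) (h1 i))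

/-- the face of `D` through `e_d` is not simplicial if it has a vector with negative last
coordinate -/
theorem not_simplicial_face {d : ℕ} {C D A : Set (Fin (d + 1) → ℝ)} (hCA : C = coneOf A)
    (hed : Pi.single (Fin.last d) 1 ∈ D)
    (hDC : D = dualOf C)
    (h1 : ∀ i : Fin d, Pi.single i.castSucc 1 ∈ C)
    (h2 : ∀ x ∈ C, ∀ j, 0 ≤ x j)
    (h5 : ∀ i : Fin d, ∃ x ∈ C, x i.castSucc = 0 ∧ 0 < x (Fin.last d))
    (hd : Nonempty (Fin d)) {g : Fin (d + 1) → ℝ} (hg : g ∈ C) (hgd : g (Fin.last d) = 0)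
    {z : Fin (d + 1) → ℝ} (hz : z ∈ perpIn D g) (hzd : z (Fin.last d) < 0) :
    ¬ IsSimplicialCone (perpIn D g) := by
  rintro ⟨m, b, hbi, hF⟩
  have hCD' : C ⊆ D := by
    intro x hx
    rw [hDC]
    intro y hy
    exact Finset.sum_nonneg (fun j _ => mul_nonneg (h2 x hx j) (h2 y hy j))
  have hDi : ∀ x ∈ D, ∀ i : Fin d, 0 ≤ x i.castSucc := by
    intro x hx i
    rw [hDC] at hx
    have := hx _ (h1 i)
    rwa [dot_basis] at this
  have haddD : ∀ x ∈ D, ∀ y ∈ D, x + y ∈ D := by
    intro x hx y hy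
    rw [hDC] at hx hy ⊢
    exact add_mem_dualOf hx hy
  have hsmulD : ∀ c : ℝ, 0 ≤ c → ∀ x ∈ D, c • x ∈ D := by
    intro c hc x hx
    rw [hDC] at hx ⊢
    exact smul_mem_dualOf hc hx
  -- no negative multiple of `e_d`
  have hneg : ∀ x ∈ D, (∀ i : Fin d, x i.castSucc = 0) → 0 ≤ x (Fin.last d) := by
    intro x hx hxi
    obtain ⟨i⟩ := hd
    obtain ⟨w, hw, -, hw2⟩ := h5 i
    rw [hDC] at hx
    have h := hx w hw
    rw [dot_castSucc] at h
    simp only [hxi, zero_mul, Finset.sum_const_zero, zero_add] at h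
    exact le_of_mul_le_mul_right (by rwa [zero_mul]) hw2
  have hbF : ∀ j, b j ∈ perpIn D g := by
    intro j
    rw [hF]
    exact subset_coneOf _ ⟨j, rfl⟩
  have hbD : ∀ j, b j ∈ D := fun j => (hbF j).1
  have hb0 : ∀ j, b j ≠ 0 := fun j => hbi.ne_zero j
  -- `e_d` in terms of the generators
  have hedF : (Pi.single (Fin.last d) 1 : Fin (d + 1) → ℝ) ∈ perpIn D g := by
    refine ⟨hed, ?_⟩
    rw [dot_basis, hgd]
  have hedF' := hedF
  rw [hF, mem_coneOf_range] at hedF'
  obtain ⟨c, hc0, hc⟩ := hedF'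
  have hsumD : ∀ (s : Finset (Fin m)) (c : Fin m → ℝ), (∀ j, 0 ≤ c j) →
      ∑ j ∈ s, c j • b j ∈ D := by
    intro s c hc
    rw [hDC]
    intro y hy
    rw [sum_dotProduct]
    refine Finset.sum_nonneg (fun j _ => ?_)
    have := hbD j
    rw [hDC] at this
    rw [smul_dotProduct]
    exact mul_nonneg (hc j) (this y hy)
  obtain ⟨j0, hj0⟩ : ∃ j0, 0 < c j0 := by
    by_contra hcon
    push Not at hcon
    have : ∀ j, c j = 0 := fun j => le_antisymm (hcon j) (hc0 j)
    have h := congrFun hc (Fin.last d)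
    simp [this] at h
  have hbj0 : ∀ i : Fin d, b j0 i.castSucc = 0 := by
    intro i
    have h := congrFun hc i.castSucc
    rw [Finset.sum_apply, ← Finset.add_sum_erase _ _ (Finset.mem_univ j0)] at h
    have h3 : 0 ≤ (∑ j ∈ Finset.univ.erase j0, c j • b j) i.castSucc :=
      hDi _ (hsumD _ c hc0) i
    rw [Finset.sum_apply] at h3
    have h4 : (Pi.single (Fin.last d) (1 : ℝ) : Fin (d + 1) → ℝ) i.castSucc = 0 := by
      simp [Pi.single_apply, (Fin.castSucc_lt_last i).ne]
    rw [h4] at h
    have h5 : 0 ≤ c j0 * b j0 i.castSucc := mul_nonneg hj0.le (hDi _ (hbD j0) i)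
    have h6 : c j0 * b j0 i.castSucc = 0 := by
      have : (c j0 • b j0) i.castSucc = c j0 * b j0 i.castSucc := rfl
      rw [this] at h
      linarith
    exact (mul_eq_zero.mp h6).resolve_left hj0.ne'
  have ht : 0 < b j0 (Fin.last d) := by
    refine lt_of_le_of_ne (hneg _ (hbD j0) hbj0) (fun h => hb0 j0 ?_)
    ext j
    refine Fin.lastCases ?_ (fun i => ?_) j
    · simpa using h.symm
    · simpa using hbj0 i
  set t := b j0 (Fin.last d) with ht_def
  -- a generator with negative last coordinate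
  have hz' := hz
  rw [hF, mem_coneOf_range] at hz'
  obtain ⟨ζ, hζ0, hζ⟩ := hz'
  obtain ⟨j1, hj1⟩ : ∃ j1, b j1 (Fin.last d) < 0 := by
    by_contra hcon
    push Not at hcon
    have h := congrFun hζ (Fin.last d)
    rw [Finset.sum_apply] at h
    have : 0 ≤ ∑ j, (ζ j • b j) (Fin.last d) :=
      Finset.sum_nonneg (fun j _ => mul_nonneg (hζ0 j) (hcon j))
    linarith
  have hj01 : j1 ≠ j0 := by
    rintro rfl
    linarith
  -- some positive coordinate of `b j1`
  obtain ⟨i, hi⟩ : ∃ i : Fin d, 0 < b j1 i.castSucc := by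
    by_contra hcon
    push Not at hcon
    have := hneg _ (hbD j1) (fun i => le_antisymm (hcon i) (hDi _ (hbD j1) i))
    linarith
  have hgb : ∀ i' : Fin d, g i'.castSucc * b j1 i'.castSucc = 0 := by
    have h := (hbF j1).2
    rw [dot_castSucc, hgd, zero_mul, add_zero] at h
    intro i'
    exact (Finset.sum_eq_zero_iff_of_nonneg
      (fun l _ => mul_nonneg (h2 g hg _) (hDi _ (hbD j1) l))).mp h i' (Finset.mem_univ _)
  have hgi : g i.castSucc = 0 := (mul_eq_zero.mp (hgb i)).resolve_right hi.ne'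
  have heiF : (Pi.single i.castSucc 1 : Fin (d + 1) → ℝ) ∈ perpIn D g := by
    refine ⟨hCD' (h1 i), ?_⟩
    rw [dot_basis, hgi]
  have heiF' := heiF
  rw [hF, mem_coneOf_range] at heiF'
  obtain ⟨β, hβ0, hβ⟩ := heiF'
  -- the remainder
  set r : Fin (d + 1) → ℝ := b j1 - b j1 (Fin.last d) • (Pi.single (Fin.last d) 1 : Fin (d + 1) → ℝ)
    - b j1 i.castSucc • (Pi.single i.castSucc 1 : Fin (d + 1) → ℝ) with hr_def
  have hr_last : r (Fin.last d) = 0 := by
    simp [hr_def, Pi.single_apply, (Fin.castSucc_lt_last i).ne']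
  have hr_i : ∀ i' : Fin d, r i'.castSucc = if i' = i then 0 else b j1 i'.castSucc := by
    intro i'
    by_cases h : i' = i
    · subst h
      simp [hr_def, Pi.single_apply, (Fin.castSucc_lt_last i').ne]
    · have h' : i'.castSucc ≠ i.castSucc := fun e => h (Fin.castSucc_injective d e)
      simp [hr_def, Pi.single_apply, (Fin.castSucc_lt_last i').ne, h, h']
  have hrF : r ∈ perpIn D g := by
    refine ⟨hCD' ?_, ?_⟩
    · rw [hCA] at h1 ⊢
      refine mem_of_last_zero h1 (fun i' => ?_) hr_last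
      rw [hr_i]
      split_ifs
      · exact le_rfl
      · exact hDi _ (hbD j1) i'
    · rw [dot_castSucc, hr_last, mul_zero, add_zero]
      refine Finset.sum_eq_zero (fun i' _ => ?_)
      rw [hr_i]
      split_ifs
      · simp
      · exact hgb i'
  have hrF' := hrF
  rw [hF, mem_coneOf_range] at hrF'
  obtain ⟨γ, hγ0, hγ⟩ := hrF'
  -- comparison of the coefficients
  have hbj0' : b j0 = t • (Pi.single (Fin.last d) 1 : Fin (d + 1) → ℝ) := by
    ext j
    refine Fin.lastCases ?_ (fun i => ?_) j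
    · simp [ht_def]
    · simp [hbj0 i, Pi.single_apply, (Fin.castSucc_lt_last i).ne]
  have hed' : (Pi.single (Fin.last d) 1 : Fin (d + 1) → ℝ) = t⁻¹ • b j0 := by
    rw [hbj0', smul_smul, inv_mul_cancel₀ ht.ne', one_smul]
  have hcoef : ∀ j, b j1 i.castSucc * β j + γ j
      - (if j = j1 then 1 else 0) + (if j = j0 then b j1 (Fin.last d) * t⁻¹ else 0) = 0 := by
    have hrel : ∑ j, (b j1 i.castSucc * β j + γ j
      - (if j = j1 then 1 else 0) + (if j = j0 then b j1 (Fin.last d) * t⁻¹ else 0)) • b j = 0 := by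
      have e1 : ∑ j, (b j1 i.castSucc * β j) • b j
          = b j1 i.castSucc • (Pi.single i.castSucc 1 : Fin (d + 1) → ℝ) := by
        rw [hβ, Finset.smul_sum]
        simp [smul_smul]
      have e2 : ∑ j, γ j • b j = r := hγ.symm
      have e3 : ∑ j, (if j = j1 then (1 : ℝ) else 0) • b j = b j1 := by simp
      have e4 : ∑ j, (if j = j0 then b j1 (Fin.last d) * t⁻¹ else 0) • b j
          = b j1 (Fin.last d) • (Pi.single (Fin.last d) 1 : Fin (d + 1) → ℝ) := by
        rw [hed', smul_smul]
        simp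
      simp only [add_smul, sub_smul, Finset.sum_add_distrib, Finset.sum_sub_distrib]
      rw [e1, e2, e3, e4, hr_def]
      abel
    exact Fintype.linearIndependent_iff.mp hbi _ hrel
  have hβj : ∀ j, j ≠ j0 → j ≠ j1 → β j = 0 := by
    intro j hj0' hj1'
    have h := hcoef j
    rw [if_neg hj1', if_neg hj0'] at h
    have h3 : 0 ≤ b j1 i.castSucc * β j := mul_nonneg hi.le (hβ0 j)
    have h4 : b j1 i.castSucc * β j = 0 := by
      have := hγ0 j
      linarith
    exact (mul_eq_zero.mp h4).resolve_left hi.ne'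
  have hei : (Pi.single i.castSucc 1 : Fin (d + 1) → ℝ) = β j0 • b j0 + β j1 • b j1 := by
    rw [hβ, ← Finset.add_sum_erase _ _ (Finset.mem_univ j0)]
    congr 1
    rw [← Finset.add_sum_erase _ _ (Finset.mem_erase.mpr ⟨hj01, Finset.mem_univ j1⟩)]
    rw [Finset.sum_eq_zero, add_zero]
    intro j hj
    simp only [Finset.mem_erase, Finset.mem_univ, and_true] at hj
    rw [hβj j hj.2 hj.1, zero_smul]
  -- the contradiction
  obtain ⟨w, hwC, hwi, hwd⟩ := h5 i
  have hβ00 : β j0 = 0 := by
    have h : w ⬝ᵥ (Pi.single i.castSucc 1 : Fin (d + 1) → ℝ) = 0 := by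
      rw [dot_basis, hwi]
    rw [hei, dotProduct_add, dotProduct_smul, dotProduct_smul] at h
    have h3 : 0 ≤ w ⬝ᵥ b j1 := by
      have := hbD j1
      rw [hDC] at this
      rw [dotProduct_comm]
      exact this w hwC
    have h4 : w ⬝ᵥ b j0 = t * w (Fin.last d) := by
      rw [hbj0', dotProduct_smul, dot_basis]
      rfl
    rw [h4] at h
    simp only [smul_eq_mul] at h
    have h6 : 0 ≤ β j1 * (w ⬝ᵥ b j1) := mul_nonneg (hβ0 j1) h3
    have h7 : 0 < t * w (Fin.last d) := mul_pos ht hwd
    have h8 : 0 ≤ β j0 * (t * w (Fin.last d)) := mul_nonneg (hβ0 j0) h7.le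
    have h9 : β j0 * (t * w (Fin.last d)) = 0 := by linarith
    exact (mul_eq_zero.mp h9).resolve_right h7.ne'
  rw [hβ00, zero_smul, zero_add] at hei
  have hl := congrFun hei (Fin.last d)
  have hl' : (0 : ℝ) = β j1 * b j1 (Fin.last d) := by
    simpa [Pi.single_apply, (Fin.castSucc_lt_last i).ne'] using hl
  have hβ1 : β j1 = 0 := (mul_eq_zero.mp hl'.symm).resolve_right hj1.ne
  rw [hβ1, zero_smul] at hei
  have hk := congrFun hei i.castSucc
  simp at hk

theorem glue {k d : ℕ} {C D A B' : Set (Fin (d + 1) → ℝ)} (hA : A.Finite) (hB : B'.Finite)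
    (hCA : C = coneOf A) (hDB : D = coneOf (insert (Pi.single (Fin.last d) 1) B'))
    (hCD : C = dualOf D) (hDC : D = dualOf C)
    (h1 : ∀ i : Fin d, Pi.single i.castSucc 1 ∈ C)
    (h2 : ∀ x ∈ C, ∀ j, 0 ≤ x j)
    (h3 : ∀ b ∈ B', b (Fin.last d) ≤ 0)
    (h4 : ∀ i : Fin d, Pi.single i.castSucc 1 ∈ coneOf B')
    (h5 : ∀ i : Fin d, ∃ x ∈ C, x i.castSucc = 0 ∧ 0 < x (Fin.last d))
    (ks1 : KS k C D) (ks2 : KS k D C)
    (h7 : ∃ i : Fin d, ∃ r ∈ C, ∃ y ∈ D, y (Fin.last d) ≤ 0 ∧ 0 < r i.castSucc ∧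
      0 < y i.castSucc ∧ r ⬝ᵥ y = 0) :
    GoodCone k (C ∪ {x | x ∈ D ∧ x (Fin.last d) ≤ 0}) := by
  have hCsD : C ⊆ D := by
    intro x hx
    rw [hDC]
    intro y hy
    exact Finset.sum_nonneg (fun j _ => mul_nonneg (h2 x hx j) (h2 y hy j))
  have hDi : ∀ x ∈ D, ∀ i : Fin d, 0 ≤ x i.castSucc := by
    intro x hx i
    rw [hDC] at hx
    have := hx _ (h1 i)
    rwa [dot_basis] at this
  have haddD : ∀ x ∈ D, ∀ y ∈ D, x + y ∈ D := by
    intro x hx y hy
    rw [hDC] at hx hy ⊢
    exact add_mem_dualOf hx hy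
  have hsmulD : ∀ c : ℝ, 0 ≤ c → ∀ x ∈ D, c • x ∈ D := by
    intro c hc x hx
    rw [hDC] at hx ⊢
    exact smul_mem_dualOf hc hx
  have hDCdot : ∀ x ∈ D, ∀ y ∈ C, 0 ≤ x ⬝ᵥ y := by
    intro x hx y hy
    rw [hDC] at hx
    exact hx y hy
  have hed : (Pi.single (Fin.last d) 1 : Fin (d + 1) → ℝ) ∈ D := by
    rw [hDB]
    exact subset_coneOf _ (Set.mem_insert _ _)
  have hB'D : ∀ b ∈ B', b ∈ D := by
    intro b hb
    rw [hDB]
    exact subset_coneOf _ (Set.mem_insert_of_mem _ hb)
  have hC0 : ∀ x : Fin (d + 1) → ℝ, (∀ i : Fin d, 0 ≤ x i.castSucc) → x (Fin.last d) = 0 →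
      x ∈ C := by
    intro x hx hx0
    rw [hCA] at h1 ⊢
    exact mem_of_last_zero h1 hx hx0
  have hKD : ∀ x ∈ C ∪ {x | x ∈ D ∧ x (Fin.last d) ≤ 0}, x ∈ D := by
    rintro x (hx | hx)
    · exact hCsD hx
    · exact hx.1
  -- membership in `C` through the generators of `D`
  have hCmem : ∀ x : Fin (d + 1) → ℝ, 0 ≤ x (Fin.last d) → (∀ b ∈ B', 0 ≤ x ⬝ᵥ b) → x ∈ C := by
    intro x hx hxb
    rw [hCD, hDB, dualOf_coneOf]
    rintro y (rfl | hy)
    · rw [dot_basis]
      exact hx
    · exact hxb y hy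
  have hsd : dualOf (C ∪ {x | x ∈ D ∧ x (Fin.last d) ≤ 0})
      = C ∪ {x | x ∈ D ∧ x (Fin.last d) ≤ 0} := by
    apply Set.Subset.antisymm
    · intro x hx
      have hxD : x ∈ D := by
        rw [hDC]
        exact fun y hy => hx y (Or.inl hy)
      by_cases hxd : x (Fin.last d) ≤ 0
      · exact Or.inr ⟨hxD, hxd⟩
      · left
        push Not at hxd
        exact hCmem x hxd.le (fun b hb => hx b (Or.inr ⟨hB'D b hb, h3 b hb⟩))
    · rintro x hx y hy
      rcases hy with hy | ⟨hyD, hyd⟩
      · exact hDCdot x (hKD x hx) y hy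
      · rcases hx with hx | ⟨hxD, hxd⟩
        · rw [dotProduct_comm]
          exact hDCdot y hyD x hx
        · rw [dot_castSucc]
          have : 0 ≤ ∑ i : Fin d, x i.castSucc * y i.castSucc :=
            Finset.sum_nonneg (fun i _ => mul_nonneg (hDi x hxD i) (hDi y hyD i))
          have := mul_nonneg_of_nonpos_of_nonpos hxd hyd
          linarith
  refine ⟨hsd, ⟨A ∪ B', hA.union hB, ?_⟩, ?_, ?_⟩
  · -- finite generation
    apply Set.Subset.antisymm
    · rintro x (hx | ⟨hxD, hxd⟩)
      · rw [hCA] at hx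
        exact coneOf_mono Set.subset_union_left hx
      · apply coneOf_mono Set.subset_union_right
        rw [← dualOf_dualOf hB]
        intro y hy
        have hyi : ∀ i : Fin d, 0 ≤ y i.castSucc := by
          intro i
          have hy' := hy
          rw [← dualOf_coneOf] at hy'
          have := hy' _ (h4 i)
          rwa [dot_basis] at this
        by_cases hyd : 0 ≤ y (Fin.last d)
        · exact hDCdot x hxD y (hCmem y hyd hy)
        · push Not at hyd
          rw [dot_castSucc]
          have : 0 ≤ ∑ i : Fin d, x i.castSucc * y i.castSucc :=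
            Finset.sum_nonneg (fun i _ => mul_nonneg (hDi x hxD i) (hyi i))
          have := mul_nonneg_of_nonpos_of_nonpos hxd hyd.le
          linarith
    · apply coneOf_subset
      · rintro x (hx | hx)
        · left
          rw [hCA]
          exact subset_coneOf _ hx
        · exact Or.inr ⟨hB'D x hx, h3 x hx⟩
      · rw [← hsd]
        exact zero_mem_dualOf _
      · intro x hx y hy
        rw [← hsd] at hx hy ⊢
        exact add_mem_dualOf hx hy
      · intro c hc x hx
        rw [← hsd] at hx ⊢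
        exact smul_mem_dualOf hc hx
  · -- simpliciality of the small faces
    intro g hg
    rcases lt_trichotomy (g (Fin.last d)) 0 with hgd | hgd | hgd
    · -- negative last coordinate
      have hgD := hKD g hg
      have hF : perpIn (C ∪ {x | x ∈ D ∧ x (Fin.last d) ≤ 0}) g = perpIn C g := by
        ext x
        constructor
        · rintro ⟨hx | ⟨hxD, hxd⟩, hgx⟩
          · exact ⟨hx, hgx⟩
          · refine ⟨?_, hgx⟩
            have hgx' := hgx
            rw [dot_castSucc] at hgx'
            have e1 : 0 ≤ ∑ i : Fin d, g i.castSucc * x i.castSucc :=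
              Finset.sum_nonneg (fun i _ => mul_nonneg (hDi g hgD i) (hDi x hxD i))
            have e2 := mul_nonneg_of_nonpos_of_nonpos hgd.le hxd
            have e3 : g (Fin.last d) * x (Fin.last d) = 0 := by linarith
            exact hC0 x (hDi x hxD) ((mul_eq_zero.mp e3).resolve_left hgd.ne)
        · rintro ⟨hx, hgx⟩
          exact ⟨Or.inl hx, hgx⟩
      rw [hF]
      exact ks1 g hgD
    · -- last coordinate zero
      have hgC : g ∈ C := hC0 g (hDi g (hKD g hg)) hgd
      have hgD := hKD g hg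
      by_cases hall : ∀ z ∈ perpIn D g, 0 ≤ z (Fin.last d)
      · have hF : perpIn (C ∪ {x | x ∈ D ∧ x (Fin.last d) ≤ 0}) g = perpIn C g := by
          ext x
          constructor
          · rintro ⟨hx | ⟨hxD, hxd⟩, hgx⟩
            · exact ⟨hx, hgx⟩
            · exact ⟨hC0 x (hDi x hxD) (le_antisymm hxd (hall x ⟨hxD, hgx⟩)), hgx⟩
          · rintro ⟨hx, hgx⟩
            exact ⟨Or.inl hx, hgx⟩
        rw [hF]
        exact ks1 g hgD
      · push Not at hall
        obtain ⟨z, hz, hzd⟩ := hall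
        right
        have hns : ¬ IsSimplicialCone (perpIn D g) :=
          not_simplicial_face (A := A) hCA hed hDC h1 h2 h5 ⟨h7.choose⟩ hgC hgd hz hzd
        refine ((ks2 g hgC).resolve_left hns).trans ?_
        apply Submodule.finrank_mono
        rw [Submodule.span_le]
        intro x hx
        -- `z + ε x` has negative last coordinate
        obtain ⟨ε, hε, hεx⟩ : ∃ ε : ℝ, 0 < ε ∧ z (Fin.last d) + ε * x (Fin.last d) ≤ 0 := by
          refine ⟨-z (Fin.last d) / (1 + |x (Fin.last d)|), by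
            apply div_pos <;> [linarith; positivity], ?_⟩
          have hpos : 0 < 1 + |x (Fin.last d)| := by positivity
          rw [div_mul_eq_mul_div, add_div' _ _ _ hpos.ne', div_nonpos_iff]
          right
          refine ⟨?_, hpos.le⟩
          have := le_abs_self (x (Fin.last d))
          nlinarith
        have e1 : z ∈ perpIn (C ∪ {x | x ∈ D ∧ x (Fin.last d) ≤ 0}) g :=
          ⟨Or.inr ⟨hz.1, hzd.le⟩, hz.2⟩
        have e2 : z + ε • x ∈ perpIn (C ∪ {x | x ∈ D ∧ x (Fin.last d) ≤ 0}) g := by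
          refine ⟨Or.inr ⟨haddD _ hz.1 _ (hsmulD ε hε.le x hx.1), ?_⟩, ?_⟩
          · simpa using hεx
          · rw [dotProduct_add, dotProduct_smul, hz.2, hx.2]
            simp
        have e3 : x = ε⁻¹ • ((z + ε • x) - z) := by
          rw [add_sub_cancel_left, smul_smul, inv_mul_cancel₀ hε.ne', one_smul]
        rw [SetLike.mem_coe, e3]
        exact Submodule.smul_mem _ _ (Submodule.sub_mem _ (Submodule.subset_span e2)
          (Submodule.subset_span e1))
    · -- positive last coordinate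
      have hgC : g ∈ C := by
        rcases hg with hg | hg
        · exact hg
        · exact absurd hg.2 (not_le.mpr hgd)
      have hF : perpIn (C ∪ {x | x ∈ D ∧ x (Fin.last d) ≤ 0}) g = perpIn D g := by
        ext x
        constructor
        · rintro ⟨hx, hgx⟩
          exact ⟨hKD x hx, hgx⟩
        · rintro ⟨hxD, hgx⟩
          refine ⟨Or.inr ⟨hxD, ?_⟩, hgx⟩
          have hx : x ∈ perpIn (coneOf (insert (Pi.single (Fin.last d) 1) B')) g := by
            rw [← hDB]
            exact ⟨hxD, hgx⟩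
          rw [perpIn_coneOf] at hx
          · have hsub : coneOf {v | v ∈ insert (Pi.single (Fin.last d) 1) B' ∧ g ⬝ᵥ v = 0}
                ⊆ {v | v (Fin.last d) ≤ 0} := by
              apply coneOf_subset
              · rintro v ⟨rfl | hv, hgv⟩
                · rw [dot_basis] at hgv
                  exact absurd hgv hgd.ne'
                · exact h3 v hv
              · simp
              · intro x hx y hy
                simp only [Set.mem_setOf_eq, Pi.add_apply] at *
                linarith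
              · intro c hc x hx
                simp only [Set.mem_setOf_eq, Pi.smul_apply, smul_eq_mul] at *
                exact mul_nonpos_of_nonneg_of_nonpos hc hx
            exact hsub hx
          · rw [← dualOf_coneOf, ← hDB, ← hCD]
            exact hgC
      rw [hF]
      exact ks2 g hgC
  · -- the witness
    obtain ⟨i, r, hr, y, hy, hyd, hri, hyi, hry⟩ := h7
    refine ⟨Pi.single i.castSucc 1, Or.inl (h1 i), r, Or.inl hr, y, Or.inr ⟨hy, hyd⟩, ?_, ?_, ?_,
      hry⟩
    · intro w hw hwz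
      have hwj : ∀ j : Fin d, j ≠ i → w j.castSucc = 0 := by
        intro j hj
        have hne : j.castSucc ≠ i.castSucc := fun e => hj (Fin.castSucc_injective d e)
        have h := hwz (Pi.single j.castSucc 1) (Or.inl (h1 j)) (by
          rw [dot_basis]
          simp [Pi.single_apply, hne.symm])
        rw [dotProduct_comm, dot_basis] at h
        exact h
      obtain ⟨x, hx, hxi, hxd⟩ := h5 i
      have hwd : w (Fin.last d) = 0 := by
        have h := hwz x (Or.inl hx) (by rw [dot_basis, hxi])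
        rw [dot_castSucc] at h
        have hs : ∑ j : Fin d, x j.castSucc * w j.castSucc = 0 := by
          refine Finset.sum_eq_zero (fun j _ => ?_)
          by_cases hj : j = i
          · rw [hj, hxi, zero_mul]
          · rw [hwj j hj, mul_zero]
        rw [hs, zero_add] at h
        exact (mul_eq_zero.mp h).resolve_left hxd.ne'
      refine ⟨w i.castSucc, ?_⟩
      ext j
      refine Fin.lastCases ?_ (fun l => ?_) j
      · simp [hwd, Pi.single_apply, (Fin.castSucc_lt_last i).ne']
      · by_cases hl : l = i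
        · subst hl
          simp
        · have hne : l.castSucc ≠ i.castSucc := fun e => hl (Fin.castSucc_injective d e)
          simp [hwj l hl, Pi.single_apply, hne]
    · rw [dotProduct_comm, dot_basis]
      exact hri
    · rw [dotProduct_comm, dot_basis]
      exact hyi

end SD3

end Pool.Agent.Helper1.SD
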