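import Mathlib

set_option autoImplicit false

namespace Pool.Agent.Helper83.MC

class Om (Ω : Type) [LinearOrder Ω] : Prop where
  wf : WellFoundedLT Ω
  cnt : ∀ a : Ω, (Set.Iio a).Countable
  bdd : ∀ s : Set Ω, s.Countable → ∃ b, ∀ a ∈ s, a < b

section
variable {Ω : Type} [LinearOrder Ω] [Om Ω]

theorem exists_least (P : Ω → Prop) (h : ∃ a, P a) : ∃ a, P a ∧ ∀ b, P b → a ≤ b := by
  have wf := (Om.wf (Ω := Ω)).wf
  obtain ⟨a, ha, hmin⟩ := wf.has_min {a | P a} h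
  exact ⟨a, ha, fun b hb => not_lt.1 (hmin b hb)⟩

theorem exists_above (a : Ω) : ∃ b, a < b := by
  obtain ⟨b, hb⟩ := Om.bdd ({a} : Set Ω) (Set.countable_singleton a)
  exact ⟨b, hb a rfl⟩

theorem closure_lemma (F : Ω → Set Ω) (hF : ∀ t, (F t).Countable) (a₀ : Ω) :
    ∃ γ, a₀ < γ ∧ ∀ t < γ, ∀ s ∈ F t, s < γ := by
  have step : ∀ a : Ω, ∃ b, a < b ∧ ∀ t ≤ a, ∀ s ∈ F t, s < b := by
    intro a
    have hc : (Set.Iic a).Countable := by
      rw [← Set.Iio_insert]; exact (Om.cnt a).insert a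
    obtain ⟨b, hb⟩ := Om.bdd ({a} ∪ ⋃ t ∈ Set.Iic a, F t)
      ((Set.countable_singleton a).union (hc.biUnion fun t _ => hF t))
    refine ⟨b, hb a (Or.inl rfl), fun t ht s hs => hb s (Or.inr ?_)⟩
    exact Set.mem_biUnion ht hs
  choose g hg1 hg2 using step
  obtain ⟨γ, hγ, hmin⟩ := exists_least (fun γ => ∀ n : ℕ, (g^[n]) a₀ < γ) (by
    obtain ⟨b, hb⟩ := Om.bdd (Set.range fun n : ℕ => (g^[n]) a₀) (Set.countable_range _)
    exact ⟨b, fun n => hb _ ⟨n, rfl⟩⟩)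
  refine ⟨γ, hγ 0, fun t ht s hs => ?_⟩
  have h1 : ¬ ∀ n : ℕ, (g^[n]) a₀ < t := fun h => absurd (hmin t h) (not_le.2 ht)
  push Not at h1
  obtain ⟨n, hn⟩ := h1
  have h2 := hg2 _ t hn s hs
  have h3 := hγ (n+1)
  rw [Function.iterate_succ_apply'] at h3
  exact h2.trans h3

end

/-- The point set. -/
def X (Ω : Type) [LinearOrder Ω] : Type := {x : ℕ → Ω // StrictMono x ∧ ∃ a, a < x 0}

section
variable {Ω : Type} [LinearOrder Ω]

theorem X.lt (x : X Ω) {i j : ℕ} (h : i < j) : x.1 i < x.1 j := x.2.1 h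

theorem exists_low (x : X Ω) : ∃ l : ℕ → Ω, ∀ i, l i < x.1 i := by
  obtain ⟨a, ha⟩ := x.2.2
  refine ⟨fun i => Nat.casesOn i a fun j => x.1 j, fun i => ?_⟩
  cases i with
  | zero => exact ha
  | succ j => exact x.lt (Nat.lt_succ_self j)

theorem exists_lt' (x : X Ω) (i : ℕ) : ∃ l, l < x.1 i := (exists_low x).imp' (fun l => l i) fun _ h => h i

def Nb (y : X Ω) (n : ℕ) (β : ℕ → Ω) : Set (X Ω) := {x | ∀ i < n, β i < x.1 i ∧ x.1 i ≤ y.1 i}

theorem Nb_mono {y : X Ω} {n m : ℕ} {β β' : ℕ → Ω} (h : n ≤ m) (hb : ∀ i < n, β i ≤ β' i) :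
    Nb y m β' ⊆ Nb y n β := fun x hx i hi =>
  ⟨(hb i hi).trans_lt (hx i (hi.trans_le h)).1, (hx i (hi.trans_le h)).2⟩

instance : TopologicalSpace (X Ω) where
  IsOpen U := ∀ y ∈ U, ∃ (n : ℕ) (β : ℕ → Ω), (∀ i, β i < y.1 i) ∧ Nb y n β ⊆ U
  isOpen_univ := fun y _ => by
    obtain ⟨l, hl⟩ := exists_low y
    exact ⟨0, l, hl, Set.subset_univ _⟩
  isOpen_inter := fun U V hU hV y hy => by
    obtain ⟨n, β, h1, h2⟩ := hU y hy.1
    obtain ⟨m, β', h3, h4⟩ := hV y hy.2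
    refine ⟨max n m, fun i => max (β i) (β' i), fun i => max_lt (h1 i) (h3 i), fun x hx => ⟨h2 ?_, h4 ?_⟩⟩
    · exact Nb_mono (le_max_left _ _) (fun i _ => le_max_left _ _) hx
    · exact Nb_mono (le_max_right _ _) (fun i _ => le_max_right _ _) hx
  isOpen_sUnion := fun S hS y hy => by
    obtain ⟨U, hU, hyU⟩ := hy
    obtain ⟨n, β, h1, h2⟩ := hS U hU y hyU
    exact ⟨n, β, h1, h2.trans (Set.subset_sUnion_of_mem hU)⟩

theorem isOpen_iff' (U : Set (X Ω)) :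
    IsOpen U ↔ ∀ y ∈ U, ∃ (n : ℕ) (β : ℕ → Ω), (∀ i, β i < y.1 i) ∧ Nb y n β ⊆ U := Iff.rfl

theorem isOpen_Nb (y : X Ω) (n : ℕ) (β : ℕ → Ω) : IsOpen (Nb y n β) := by
  intro x hx
  obtain ⟨l, hl⟩ := exists_low x
  refine ⟨n, fun i => if i < n then β i else l i, fun i => ?_, fun z hz i hi => ?_⟩
  · dsimp only
    split_ifs with h
    · exact (hx i h).1
    · exact hl i
  · have := hz i hi
    simp only [if_pos hi] at this
    exact ⟨this.1, this.2.trans (hx i hi).2⟩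

/-- `u` matches the list `p` of pairs. -/
def Mt (u b : ℕ → Ω) : List (Ω × Ω) → Prop
  | [] => True
  | e :: q => (u q.length = e.1 ∧ b q.length ≤ e.2) ∧ Mt u b q

def Fit (x : ℕ → Ω) : List (Ω × Ω) → Prop
  | [] => True
  | e :: q => ((e.2 < x q.length ∧ x q.length ≤ e.1) ∨ x q.length = e.1) ∧ Fit x q

theorem fit_mt {u b x : ℕ → Ω} (hb : ∀ i, b i < u i) :
    ∀ p : List (Ω × Ω), Mt u b p → Fit x p → ∀ i < p.length, b i < x i ∧ x i ≤ u i
  | [], _, _ => fun i hi => absurd hi (Nat.not_lt_zero i)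
  | e :: q, hm, hf => fun i hi => by
    rcases Nat.lt_succ_iff_lt_or_eq.1 (show i < q.length + 1 from hi) with h | h
    · exact fit_mt hb q hm.2 hf.2 i h
    · subst h
      rcases hf.1 with h | h
      · exact ⟨hm.1.2.trans_lt h.1, h.2.trans hm.1.1.ge⟩
      · rw [h, ← hm.1.1]; exact ⟨hb _, le_rfl⟩

theorem Fit.congr {x y : ℕ → Ω} : ∀ p : List (Ω × Ω), (∀ i < p.length, x i = y i) → Fit x p → Fit y p
  | [], _, _ => trivial
  | e :: q, h, hf => by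
    have h1 : x q.length = y q.length := h _ (Nat.lt_succ_self _)
    refine ⟨?_, Fit.congr q (fun i hi => h i (Nat.lt_succ_of_lt hi)) hf.2⟩
    rw [← h1]; exact hf.1

theorem mem_Nb_of_fit {u x : X Ω} {b : ℕ → Ω} {n : ℕ} (hb : ∀ i, b i < u.1 i) {p : List (Ω × Ω)}
    (hm : Mt u.1 b p) (hf : Fit x.1 p) (hn : n ≤ p.length) : x ∈ Nb u n b :=
  fun i hi => fit_mt hb p hm hf i (hi.trans_le hn)

/-- the first `m` coordinates, in reversed order -/
def stem (y : ℕ → Ω) : ℕ → List Ω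
  | 0 => []
  | m+1 => y m :: stem y m

theorem length_stem (y : ℕ → Ω) : ∀ m, (stem y m).length = m
  | 0 => rfl
  | m+1 => by simp [stem, length_stem y m]

def hat (τ : List Ω) : List (Ω × Ω) := τ.map fun g => (g, g)

theorem length_hat (τ : List Ω) : (hat τ).length = τ.length := by simp [hat]

theorem fit_hat_stem (y : ℕ → Ω) : ∀ m, Fit y (hat (stem y m))
  | 0 => trivial
  | m+1 => by
    refine ⟨Or.inr ?_, fit_hat_stem y m⟩
    simp [length_stem]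

theorem mt_hat_stem {y z b : ℕ → Ω} (hb : ∀ i, b i < z i) :
    ∀ m, (∀ i < m, z i = y i) → Mt z b (hat (stem y m))
  | 0, _ => trivial
  | m+1, h => by
    refine ⟨?_, mt_hat_stem hb m fun i hi => h i (hi.trans (Nat.lt_succ_self m))⟩
    simp only [List.length_map, length_stem]
    exact ⟨h m (Nat.lt_succ_self m), (hb m).le.trans (h m (Nat.lt_succ_self m)).le⟩

end

section L
variable {Ω : Type} [LinearOrder Ω] (ν : X Ω → ℕ) (β : X Ω → ℕ → Ω)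

def L (Φ : X Ω → Prop) : ℕ → List (Ω × Ω) → Prop
  | 0, p => ∃ u : X Ω, Φ u ∧ ν u ≤ p.length ∧ Mt u.1 (β u) p
  | d+1, p => ∃ t, ∀ a, ∃ γ, a < γ ∧ L Φ d ((γ, t) :: p)

variable {ν β}

theorem L.mono {Φ Ψ : X Ω → Prop} (h : ∀ u, Φ u → Ψ u) :
    ∀ d p, L ν β Φ d p → L ν β Ψ d p
  | 0, p, ⟨u, h1, h2⟩ => ⟨u, h u h1, h2⟩
  | d+1, p, ⟨t, ht⟩ => ⟨t, fun a => by
      obtain ⟨γ, h1, h2⟩ := ht a
      exact ⟨γ, h1, L.mono h d _ h2⟩⟩

theorem L.split {Φ Ψ : X Ω → Prop} :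
    ∀ d p, L ν β (fun u => Φ u ∨ Ψ u) d p → L ν β Φ d p ∨ L ν β Ψ d p
  | 0, p, ⟨u, h1, h2⟩ => by
    rcases h1 with h1 | h1
    · exact Or.inl ⟨u, h1, h2⟩
    · exact Or.inr ⟨u, h1, h2⟩
  | d+1, p, ⟨t, ht⟩ => by
    by_cases hc : ∀ a, ∃ γ, a < γ ∧ L ν β Φ d ((γ, t) :: p)
    · exact Or.inl ⟨t, hc⟩
    · push Not at hc
      obtain ⟨a₁, ha₁⟩ := hc
      refine Or.inr ⟨t, fun a => ?_⟩
      obtain ⟨γ, h1, h2⟩ := ht (max a a₁)
      rcases L.split d _ h2 with h3 | h3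
      · exact absurd h3 (ha₁ γ ((le_max_right _ _).trans_lt h1))
      · exact ⟨γ, (le_max_left _ _).trans_lt h1, h3⟩

theorem L.exists_mt {Φ : X Ω → Prop} [Nonempty Ω] :
    ∀ d p, L ν β Φ d p → ∃ u, Φ u ∧ Mt u.1 (β u) p
  | 0, p, ⟨u, h1, h2⟩ => ⟨u, h1, h2.2⟩
  | d+1, p, ⟨t, ht⟩ => by
    obtain ⟨a⟩ := ‹Nonempty Ω›
    obtain ⟨γ, h1, h2⟩ := ht a
    obtain ⟨u, h3, h4⟩ := L.exists_mt (Φ := Φ) d _ h2
    exact ⟨u, h3, h4.2⟩

end L

section existence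
variable {Ω : Type} [LinearOrder Ω] [Om Ω] {ν : X Ω → ℕ} {β : X Ω → ℕ → Ω}

def Ad (P0 : List (Ω × Ω)) : List Ω → Set (List (Ω × Ω))
  | [] => {P0}
  | g :: σ => {p | ∃ t < g, ∃ q ∈ Ad P0 σ, p = (g, t) :: q}

theorem Ad_countable (P0 : List (Ω × Ω)) : ∀ σ, (Ad P0 σ).Countable
  | [] => Set.countable_singleton _
  | g :: σ => by
    have h : Ad P0 (g :: σ) ⊆ ⋃ t ∈ Set.Iio g, (fun q => (g, t) :: q) '' (Ad P0 σ) := by
      rintro p ⟨t, ht, q, hq, rfl⟩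
      exact Set.mem_biUnion (show t ∈ Set.Iio g from ht) ⟨q, hq, rfl⟩
    exact ((Om.cnt g).biUnion fun t _ => (Ad_countable P0 σ).image _).mono h

theorem bad_step {Φ : X Ω → Prop} {P0 : List (Ω × Ω)} {σ : List Ω}
    (h : ∀ p ∈ Ad P0 σ, ∀ d, ¬ L ν β Φ d p) (a₀ : Ω) :
    ∃ γ, a₀ < γ ∧ ∀ p ∈ Ad P0 (γ :: σ), ∀ d, ¬ L ν β Φ d p := by
  have h1 : ∀ q : List (Ω × Ω), ∀ d : ℕ, ∀ t : Ω, ∃ a, q ∈ Ad P0 σ →
      ∀ γ, a < γ → ¬ L ν β Φ d ((γ, t) :: q) := by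
    intro q d t
    by_cases hq : q ∈ Ad P0 σ
    · have h2 := h q hq (d+1)
      simp only [L, not_exists, not_forall, not_and] at h2
      obtain ⟨a, ha⟩ := h2 t
      exact ⟨a, fun _ => ha⟩
    · exact ⟨a₀, fun h => absurd h hq⟩
  choose f hf using h1
  obtain ⟨γ, hγ, hcl⟩ := closure_lemma
    (fun t => ⋃ q ∈ Ad P0 σ, Set.range fun d : ℕ => f q d t)
    (fun t => (Ad_countable P0 σ).biUnion fun q _ => Set.countable_range _) a₀
  refine ⟨γ, hγ, ?_⟩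
  rintro p ⟨t, ht, q, hq, rfl⟩ d
  exact hf q d t hq γ (hcl t ht _ (Set.mem_biUnion hq ⟨d, rfl⟩))

theorem L.exists_depth (hβ : ∀ u i, β u i < u.1 i) (y : X Ω) (m : ℕ) :
    ∃ d, L ν β (fun _ => True) d (hat (stem y.1 m)) := by
  by_contra hcon
  push Not at hcon
  let P0 := hat (stem y.1 m)
  have hstep : ∀ s : {σ : List Ω // ∀ p ∈ Ad P0 σ, ∀ d, ¬ L ν β (fun _ => True) d p},
      ∃ γ, s.1.headD (y.1 m) < γ ∧ ∀ p ∈ Ad P0 (γ :: s.1), ∀ d, ¬ L ν β (fun _ => True) d p :=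
    fun s => bad_step s.2 _
  choose G hG1 hG2 using hstep
  let s : ℕ → {σ : List Ω // ∀ p ∈ Ad P0 σ, ∀ d, ¬ L ν β (fun _ => True) d p} :=
    fun n => Nat.rec ⟨[], by
      intro p hp d
      have : p = P0 := hp
      rw [this]; exact hcon d⟩ (fun _ s => ⟨G s :: s.1, hG2 s⟩) n
  have hs : ∀ k, (s (k+1)).1 = G (s k) :: (s k).1 := fun k => rfl
  have hG0 : y.1 m < G (s 0) := hG1 (s 0)
  have hGs : ∀ k, G (s k) < G (s (k+1)) := by
    intro k
    have := hG1 (s (k+1))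
    rw [hs] at this
    exact this
  have hGm : StrictMono fun k => G (s k) := strictMono_nat_of_lt_succ hGs
  let z : ℕ → Ω := fun i => if i < m then y.1 i else G (s (i - m))
  have hz1 : ∀ i < m, z i = y.1 i := fun i hi => if_pos hi
  have hz2 : ∀ k, z (m + k) = G (s k) := fun k => by
    have : ¬ (m + k < m) := by omega
    simp only [z, if_neg this, Nat.add_sub_cancel_left]
  have hzm : StrictMono z := by
    refine strictMono_nat_of_lt_succ fun i => ?_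
    rcases lt_trichotomy (i+1) m with h | h | h
    · rw [hz1 i (by omega), hz1 (i+1) h]; exact y.lt (Nat.lt_succ_self i)
    · rw [hz1 i (by omega), h]
      have := hz2 0
      rw [Nat.add_zero] at this
      rw [this]
      exact (y.lt (show i < m by omega)).trans hG0
    · obtain ⟨k, rfl⟩ : ∃ k, i = m + k := ⟨i - m, by omega⟩
      rw [hz2 k, Nat.add_assoc, hz2 (k+1)]
      exact hGs k
  have hz0 : ∃ a, a < z 0 := by
    obtain ⟨a, ha⟩ := y.2.2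
    refine ⟨a, ha.trans_le ?_⟩
    rcases Nat.eq_zero_or_pos m with h | h
    · have := hz2 0
      rw [Nat.add_zero, h] at this
      rw [this]
      rw [h] at hG0
      exact hG0.le
    · rw [hz1 0 h]
  let Z : X Ω := ⟨z, hzm, hz0⟩
  let pk : ℕ → List (Ω × Ω) := fun k => Nat.rec P0 (fun k q => (z (m + k), β Z (m+k)) :: q) k
  have hpk : ∀ k, pk (k+1) = (z (m + k), β Z (m+k)) :: pk k := fun k => rfl
  have hlen : ∀ k, (pk k).length = m + k := by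
    intro k
    induction k with
    | zero => simp [pk, P0, length_hat, length_stem]
    | succ k ih => rw [hpk, List.length_cons, ih]; rfl
  have hAd : ∀ k, pk k ∈ Ad P0 (s k).1 := by
    intro k
    induction k with
    | zero => exact rfl
    | succ k ih =>
      rw [hs]
      refine ⟨β Z (m+k), ?_, pk k, ih, ?_⟩
      · have := hβ Z (m+k)
        rw [← hz2 k]; exact this
      · rw [hpk, hz2]
  have hMt : ∀ k, Mt Z.1 (β Z) (pk k) := by
    intro k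
    induction k with
    | zero => exact mt_hat_stem (hβ Z) m hz1
    | succ k ih =>
      rw [hpk]
      refine ⟨?_, ih⟩
      rw [hlen]
      exact ⟨rfl, le_rfl⟩
  have hk : ν Z ≤ (pk (ν Z)).length := by rw [hlen]; omega
  exact (s (ν Z)).2 _ (hAd _) 0 ⟨Z, trivial, hk, hMt _⟩

end existence

end Pool.Agent.Helper83.MC
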