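import Pool.Agent.Helper83.MC1

set_option autoImplicit false

namespace Pool.Agent.Helper83.MC

section notmeta
variable {Ω : Type} [LinearOrder Ω] [Om Ω] {ν : X Ω → ℕ} {β : X Ω → ℕ → Ω}

theorem extend (x : X Ω) (k : ℕ) (a : Ω) :
    ∃ z : X Ω, (∀ i < k, z.1 i = x.1 i) ∧ a < z.1 k := by
  have : NoMaxOrder Ω := ⟨exists_above⟩
  have : Nonempty Ω := ⟨a⟩
  obtain ⟨b, hb⟩ := exists_above (max a (x.1 k))
  obtain ⟨s, hs, hs0⟩ := Nat.exists_strictMono' b
  have h1 : ∀ i, b ≤ s i := fun i => by rw [← hs0]; exact hs.monotone (Nat.zero_le i)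
  refine ⟨⟨fun i => if i < k then x.1 i else s i, ?_, ?_⟩, fun i hi => if_pos hi, ?_⟩
  · refine strictMono_nat_of_lt_succ fun i => ?_
    by_cases h2 : i + 1 < k
    · simp only [if_pos h2, if_pos (show i < k by omega)]
      exact x.lt (Nat.lt_succ_self i)
    · by_cases h3 : i < k
      · simp only [if_neg h2, if_pos h3]
        exact (((x.lt h3).trans_le (le_max_right _ _)).trans hb).trans_le (h1 _)
      · simp only [if_neg h2, if_neg h3]
        exact hs (Nat.lt_succ_self i)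
  · obtain ⟨c, hc⟩ := x.2.2
    refine ⟨c, ?_⟩
    rcases Nat.eq_zero_or_pos k with h | h
    · subst h
      simp only [Nat.lt_irrefl, if_false]
      exact ((hc.trans_le (le_max_right _ _)).trans hb).trans_le (h1 0)
    · simp only [if_pos h]; exact hc
  · simp only [Nat.lt_irrefl, if_false]
    exact ((le_max_left _ _).trans_lt hb).trans_le (h1 k)

theorem common (hβ : ∀ u i, β u i < u.1 i) (Φ : ℕ → X Ω → Prop) :
    ∀ (d k : ℕ) (P : ℕ → List (Ω × Ω)), (∀ l, (P l).length = k) →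
      ∀ x : X Ω, (∀ l, Fit x.1 (P l)) → (∀ l, L ν β (Φ l) d (P l)) →
      ∃ z : X Ω, ∀ l, ∃ u, Φ l u ∧ z ∈ Nb u (ν u) (β u)
  | 0, k, P, hlen, x, hfit, hL => by
    refine ⟨x, fun l => ?_⟩
    obtain ⟨u, h1, h2, h3⟩ := hL l
    exact ⟨u, h1, mem_Nb_of_fit (hβ u) h3 (hfit l) h2⟩
  | d+1, k, P, hlen, x, hfit, hL => by
    choose t ht using hL
    obtain ⟨b, hb⟩ := Om.bdd (Set.range t) (Set.countable_range _)
    obtain ⟨z, hz1, hz2⟩ := extend x k b
    choose γ hγ1 hγ2 using fun l => ht l (z.1 k)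
    refine common hβ Φ d (k+1) (fun l => (γ l, t l) :: P l) (fun l => by simp [hlen l]) z
      (fun l => ⟨Or.inl ?_, ?_⟩) hγ2
    · rw [hlen l]
      exact ⟨(hb _ ⟨l, rfl⟩).trans hz2, (hγ1 l).le⟩
    · refine (hfit l).congr _ fun i hi => ?_
      rw [hlen l] at hi
      exact (hz1 i hi).symm

/-- If no point lies in infinitely many neighbourhoods with distinct labels, then the labels are
bounded along a tree. -/
theorem bounded (hβ : ∀ u i, β u i < u.1 i) (α : X Ω → Ω) (x₀ : X Ω)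
    (hfin : ∀ (c : ℕ → Ω), StrictMono c → ∀ z : X Ω,
      ¬ ∀ l, ∃ u, (c l < α u ∧ α u ≤ c (l+1)) ∧ z ∈ Nb u (ν u) (β u)) :
    ∀ (d : ℕ) (p : List (Ω × Ω)) (x : X Ω), Fit x.1 p → L ν β (fun _ => True) d p →
      ∃ c, L ν β (fun u => α u ≤ c) d p
  | 0, p, x, _, ⟨u, _, h2⟩ => ⟨α u, u, le_rfl, h2⟩
  | d+1, p, x, hx, ⟨t, ht⟩ => by
    by_contra hcon
    push Not at hcon
    -- work above a point `x'` which fits all the extended lists
    obtain ⟨x', hx1, hx2⟩ := extend x p.length t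
    have hx' : Fit x'.1 p := hx.congr p fun i hi => (hx1 i hi).symm
    have step : ∀ c : Ω, ∃ γ c', x'.1 p.length < γ ∧ c < c' ∧
        L ν β (fun u => c < α u ∧ α u ≤ c') d ((γ, t) :: p) := by
      intro c
      have h1 := hcon c
      simp only [L, not_exists, not_forall, not_and] at h1
      obtain ⟨a, ha⟩ := h1 t
      obtain ⟨γ, hγ1, hγ2⟩ := ht (max a (x'.1 p.length))
      have hfit : Fit x'.1 ((γ, t) :: p) :=
        ⟨Or.inl ⟨hx2, ((le_max_right _ _).trans_lt hγ1).le⟩, hx'⟩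
      obtain ⟨c', hc'⟩ := bounded hβ α x₀ hfin d ((γ, t) :: p) x' hfit hγ2
      have h2 : L ν β (fun u => α u ≤ c ∨ (c < α u ∧ α u ≤ c')) d ((γ, t) :: p) :=
        L.mono (fun u hu => by
          rcases le_or_gt (α u) c with h | h
          · exact Or.inl h
          · exact Or.inr ⟨h, hu⟩) d _ hc'
      rcases L.split d _ h2 with h3 | h3
      · exact absurd h3 (ha γ ((le_max_left _ _).trans_lt hγ1))
      · have : Nonempty Ω := ⟨c⟩
        obtain ⟨u, hu, _⟩ := L.exists_mt d _ h3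
        exact ⟨γ, c', (le_max_right _ _).trans_lt hγ1, hu.1.trans_le hu.2, h3⟩
    choose G C hG hC hL using step
    let c : ℕ → Ω := fun n => Nat.rec t (fun _ c => C c) n
    have hc : ∀ n, c (n+1) = C (c n) := fun n => rfl
    have hcm : StrictMono c := strictMono_nat_of_lt_succ fun n => by rw [hc]; exact hC _
    obtain ⟨z, hz⟩ := common hβ (fun l u => c l < α u ∧ α u ≤ c (l+1)) d (p.length + 1)
      (fun l => (G (c l), t) :: p) (fun l => rfl) x'
      (fun l => ⟨Or.inl ⟨hx2, (hG (c l)).le⟩, hx'⟩)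
      (fun l => by rw [hc]; exact hL (c l))
    exact hfin c hcm z hz

theorem exists_point (a : Ω) : ∃ x : X Ω, a < x.1 0 := by
  have : NoMaxOrder Ω := ⟨exists_above⟩
  have : Nonempty Ω := ⟨a⟩
  obtain ⟨b, hb⟩ := exists_above a
  obtain ⟨s, hs, hs0⟩ := Nat.exists_strictMono' b
  have h : a < s 0 := by rw [hs0]; exact hb
  exact ⟨⟨s, hs, a, h⟩, h⟩

def Gcov (a : Ω) : Set (X Ω) := {x | x.1 0 ≤ a}

theorem isOpen_Gcov (a : Ω) : IsOpen (Gcov a : Set (X Ω)) := by
  intro y hy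
  obtain ⟨l, hl⟩ := exists_low y
  exact ⟨1, l, hl, fun x hx => (hx 0 Nat.one_pos).2.trans hy⟩

theorem not_metacompact [Nonempty Ω] (R : Set (Set (X Ω))) (hR : ∀ V ∈ R, IsOpen V)
    (hcov : ⋃₀ R = Set.univ) (href : ∀ V ∈ R, ∃ a : Ω, V ⊆ Gcov a)
    (hfin : ∀ x : X Ω, {V ∈ R | x ∈ V}.Finite) : False := by
  have h1 : ∀ u : X Ω, ∃ V ∈ R, u ∈ V := fun u => by
    have : u ∈ ⋃₀ R := by rw [hcov]; trivial
    exact this
  choose V hVR hV using h1
  have h2 : ∀ u : X Ω, ∃ (n : ℕ) (b : ℕ → Ω), (∀ i, b i < u.1 i) ∧ Nb u n b ⊆ V u :=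
    fun u => (isOpen_iff' _).1 (hR _ (hVR u)) u (hV u)
  choose ν β hβ hN using h2
  choose A hA using href
  let α : X Ω → Ω := fun u => A (V u) (hVR u)
  have hα : ∀ u, V u ⊆ Gcov (α u) := fun u => hA _ _
  obtain ⟨a⟩ := ‹Nonempty Ω›
  obtain ⟨x₀, hx₀⟩ := exists_point a
  have hfin' : ∀ (c : ℕ → Ω), StrictMono c → ∀ z : X Ω,
      ¬ ∀ l, ∃ u, (c l < α u ∧ α u ≤ c (l+1)) ∧ z ∈ Nb u (ν u) (β u) := by
    intro c hc z hz
    choose u hu1 hu2 using hz
    have hinj : Function.Injective fun l => V (u l) := by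
      intro l l' hll
      have e1 : α (u l) = α (u l') := by
        simp only [α]
        congr 1
      by_contra hne
      rcases lt_or_gt_of_ne hne with h | h
      · have := (hu1 l').1
        rw [← e1] at this
        exact absurd (this.trans_le (hu1 l).2) (not_lt.2 (hc.monotone h))
      · have := (hu1 l).1
        rw [e1] at this
        exact absurd (this.trans_le (hu1 l').2) (not_lt.2 (hc.monotone h))
    have hinf := Set.infinite_range_of_injective hinj
    refine hinf ((hfin z).subset ?_)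
    rintro W ⟨l, rfl⟩
    exact ⟨hVR _, hN _ (hu2 l)⟩
  obtain ⟨d, hd⟩ := L.exists_depth hβ x₀ 0
  obtain ⟨c, hc⟩ := bounded hβ α x₀ hfin' d (hat (stem x₀.1 0)) x₀ (fit_hat_stem _ 0) hd
  cases d with
  | zero =>
    obtain ⟨u, h1, h2, h3⟩ := hc
    obtain ⟨x, hx⟩ := exists_point c
    have h4 : x ∈ Nb u (ν u) (β u) := by
      intro i hi
      have : (hat (stem x₀.1 0)).length = 0 := rfl
      omega
    exact absurd ((hα u (hN u h4)).trans h1) (not_le.2 hx)
  | succ d =>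
    obtain ⟨t, ht⟩ := hc
    obtain ⟨γ, h1, h2⟩ := ht c
    have : Nonempty Ω := ⟨a⟩
    obtain ⟨u, h3, h4⟩ := L.exists_mt d _ h2
    have h5 : u.1 0 = γ := h4.1.1
    have h6 : u.1 0 ≤ α u := hα u (hV u)
    rw [h5] at h6
    exact absurd (h6.trans h3) (not_le.2 h1)

end notmeta

end Pool.Agent.Helper83.MC
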