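import Pool.Agent.Helper83.MC1

set_option autoImplicit false

namespace Pool.Agent.Helper83.MC

section club
variable {Ω : Type} [LinearOrder Ω] [Om Ω]

theorem list_bound {h : Ω} : ∀ (p : List (Ω × Ω)) (a : Ω), a < h → (∀ e ∈ p, e.1 < h ∧ e.2 < h) →
    ∃ b, a ≤ b ∧ b < h ∧ ∀ e ∈ p, e.1 ≤ b ∧ e.2 ≤ b
  | [], a, ha, _ => ⟨a, le_rfl, ha, fun e he => absurd he List.not_mem_nil⟩
  | e :: q, a, ha, hp => by
    obtain ⟨b, h1, h2, h3⟩ := list_bound q a ha fun e' he' => hp e' (List.mem_cons_of_mem _ he')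
    have he := hp e List.mem_cons_self
    refine ⟨max b (max e.1 e.2), h1.trans (le_max_left _ _), max_lt h2 (max_lt he.1 he.2), ?_⟩
    intro e' he'
    rcases List.mem_cons.1 he' with rfl | h
    · exact ⟨(le_max_left _ _).trans (le_max_right _ _), (le_max_right _ _).trans (le_max_right _ _)⟩
    · exact ⟨(h3 e' h).1.trans (le_max_left _ _), (h3 e' h).2.trans (le_max_left _ _)⟩

theorem countable_lists (a : Ω) : {p : List (Ω × Ω) | ∀ e ∈ p, e.1 ≤ a ∧ e.2 ≤ a}.Countable := by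
  have hc : (Set.Iic a).Countable := by
    rw [← Set.Iio_insert]; exact (Om.cnt a).insert a
  have h2 : (Set.Iic a ×ˢ Set.Iic a).Countable := hc.prod hc
  have : Countable ↑(Set.Iic a ×ˢ Set.Iic a) := h2.to_subtype
  have h3 : {p : List (Ω × Ω) | ∀ e ∈ p, e.1 ≤ a ∧ e.2 ≤ a} =
      Set.range (List.map ((↑) : ↑(Set.Iic a ×ˢ Set.Iic a) → Ω × Ω)) := by
    rw [Set.range_list_map_coe]; rfl
  rw [h3]
  exact Set.countable_range _

/-- a closed unbounded set of closure points of the functions `T`, `G`, given by its successor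
function `nxt` -/
theorem exists_nxt (T : ℕ → List (Ω × Ω) → Ω) (G : ℕ → List (Ω × Ω) → Ω → Ω) :
    ∃ nxt : Ω → Ω, (∀ a, a < nxt a) ∧ (∀ a b, a ≤ b → nxt a ≤ nxt b) ∧
      (∀ a d p, (∀ e ∈ p, e.1 < nxt a ∧ e.2 < nxt a) →
        T d p < nxt a ∧ ∀ a' < nxt a, G d p a' < nxt a) ∧
      ∀ y : Ω, (∃ b, b < y) → (∀ x < y, nxt x ≤ y) ∨
        ∃ b < y, ∀ x, b < x → x < y → nxt x = nxt y := by
  have h1 : ∀ a : Ω, ∃ c, ∀ p : List (Ω × Ω), (∀ e ∈ p, e.1 ≤ a ∧ e.2 ≤ a) → ∀ d, T d p < c ∧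
      ∀ a' ≤ a, G d p a' < c := by
    intro a
    have hc : (Set.Iic a).Countable := by
      rw [← Set.Iio_insert]; exact (Om.cnt a).insert a
    obtain ⟨c, hc⟩ := Om.bdd (⋃ p ∈ {p : List (Ω × Ω) | ∀ e ∈ p, e.1 ≤ a ∧ e.2 ≤ a}, ⋃ d : ℕ,
      ({T d p} ∪ (G d p) '' Set.Iic a)) ((countable_lists a).biUnion fun p _ =>
        Set.countable_iUnion fun d => (Set.countable_singleton _).union (hc.image _))
    refine ⟨c, fun p hp d => ⟨?_, fun a' ha' => ?_⟩⟩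
    · exact hc _ (Set.mem_biUnion hp (Set.mem_iUnion.2 ⟨d, Or.inl rfl⟩))
    · exact hc _ (Set.mem_biUnion hp (Set.mem_iUnion.2 ⟨d, Or.inr ⟨a', ha', rfl⟩⟩))
  choose c hc using h1
  have h2 : ∀ a : Ω, ∃ γ, (a < γ ∧ ∀ t < γ, c t < γ) ∧ ∀ δ, (a < δ ∧ ∀ t < δ, c t < δ) → γ ≤ δ := by
    intro a
    refine exists_least (fun γ => a < γ ∧ ∀ t < γ, c t < γ) ?_
    obtain ⟨γ, h1, h2⟩ := closure_lemma (fun t => {c t}) (fun t => Set.countable_singleton _) a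
    exact ⟨γ, h1, fun t ht => h2 t ht _ rfl⟩
  choose nxt hn1 hn2 using h2
  refine ⟨nxt, fun a => (hn1 a).1, fun a b hab => hn2 a _ ⟨hab.trans_lt (hn1 b).1, (hn1 b).2⟩,
    ?_, ?_⟩
  · intro a d p hp
    refine ⟨?_, fun a' ha' => ?_⟩
    · obtain ⟨b, _, hb1, hb2⟩ := list_bound p a (hn1 a).1 hp
      exact (hc b p hb2 d).1.trans ((hn1 a).2 b hb1)
    · obtain ⟨b, hb0, hb1, hb2⟩ := list_bound p a' ha' hp
      exact ((hc b p hb2 d).2 a' hb0).trans ((hn1 a).2 b hb1)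
  · rintro y -
    by_cases hy : ∀ t < y, c t < y
    · exact Or.inl fun x hx => hn2 x y ⟨hx, hy⟩
    · push Not at hy
      obtain ⟨b, hb1, hb2⟩ := hy
      refine Or.inr ⟨b, hb1, fun x hx1 hx2 => le_antisymm ?_ ?_⟩
      · exact hn2 x _ ⟨hx2.trans (hn1 y).1, (hn1 y).2⟩
      · refine hn2 y _ ⟨?_, (hn1 x).2⟩
        by_contra hcon
        have h3 : nxt x ≤ y := not_lt.1 hcon
        have h4 := (hn1 x).2 b (hx1.trans (hn1 x).1)
        exact absurd (h4.trans_le h3) (not_lt.2 hb2)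

theorem exists_enum : ∃ e : Ω → Ω → ℕ, ∀ δ, Set.InjOn (e δ) (Set.Iio δ) := by
  have : ∀ δ : Ω, ∃ f : Ω → ℕ, Set.InjOn f (Set.Iio δ) := fun δ =>
    Set.countable_iff_exists_injOn.1 (Om.cnt δ)
  exact ⟨fun δ => (this δ).choose, fun δ => (this δ).choose_spec⟩

theorem finite_below {e : Ω → Ω → ℕ} (he : ∀ δ, Set.InjOn (e δ) (Set.Iio δ)) (δ : Ω) (n : ℕ) :
    {b | b < δ ∧ e δ b ≤ n}.Finite := by
  have h1 : (e δ '' {b | b < δ ∧ e δ b ≤ n}).Finite := by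
    refine (Set.finite_Iic n).subset ?_
    rintro _ ⟨b, hb, rfl⟩
    exact hb.2
  exact Set.Finite.of_finite_image h1 ((he δ).mono fun b hb => hb.1)

theorem exists_gap {e : Ω → Ω → ℕ} (he : ∀ δ, Set.InjOn (e δ) (Set.Iio δ)) (δ y : Ω) (hy : y < δ)
    (hb : ∃ b, b < y) : ∃ b < y, ∀ x, b < x → x < y → e δ y ≤ e δ x := by
  obtain ⟨b₀, hb₀⟩ := hb
  have hfin : ({b | b < δ ∧ e δ b ≤ e δ y} ∩ Set.Iio y ∪ {b₀}).Finite :=
    ((finite_below he δ (e δ y)).subset Set.inter_subset_left).union (Set.finite_singleton _)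
  obtain ⟨b, hb1, hb2⟩ := hfin.exists_maximal ⟨b₀, Or.inr rfl⟩
  have hby : b < y := by
    rcases hb1 with h | h
    · exact h.2
    · rw [h]; exact hb₀
  refine ⟨b, hby, fun x hx1 hx2 => ?_⟩
  by_contra hcon
  have h3 : x ∈ ({b | b < δ ∧ e δ b ≤ e δ y} ∩ Set.Iio y ∪ {b₀}) :=
    Or.inl ⟨⟨hx2.trans hy, (not_le.1 hcon).le⟩, hx2⟩
  exact absurd (hb2 h3 hx1.le) (not_le.2 hx1)

end club

end Pool.Agent.Helper83.MC
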