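import Pool.Agent.Helper83.MC3

set_option autoImplicit false

namespace Pool.Agent.Helper83.MC

section compact
variable {Ω : Type} [LinearOrder Ω] [Om Ω]

def KK (e : Ω → Ω → ℕ) (x : ℕ → Ω) : Set (ℕ → Ω) :=
  {w | ∀ i, (x i ≤ w i ∧ w i ≤ x (i+1)) ∧
    (x (i+1) < w (i+1) ∨ (w i < x (i+1) ∧ e (x (i+1)) (w i) ≤ e (x (i+1)) (x i)))}

theorem KK_mem_X {e : Ω → Ω → ℕ} (x : X Ω) {w : ℕ → Ω} (hw : w ∈ KK e x.1) :
    StrictMono w ∧ ∃ a, a < w 0 := by
  refine ⟨strictMono_nat_of_lt_succ fun i => ?_, ?_⟩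
  · obtain ⟨h1, h2⟩ := hw i
    rcases h2 with h | h
    · exact h1.2.trans_lt h
    · exact h.1.trans_le (hw (i+1)).1.1
  · obtain ⟨a, ha⟩ := x.2.2
    exact ⟨a, ha.trans_le (hw 0).1.1⟩

theorem compact_cover {e : Ω → Ω → ℕ} (he : ∀ δ, Set.InjOn (e δ) (Set.Iio δ))
    {ν : X Ω → ℕ} {β : X Ω → ℕ → Ω} (hβ : ∀ u i, β u i < u.1 i) (x : X Ω) :
    ∃ Z : Finset (X Ω), ∀ w : X Ω, w.1 ∈ KK e x.1 → ∃ z ∈ Z, w ∈ Nb z (ν z) (β z) := by
  have : WellFoundedLT Ω := Om.wf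
  have : Nonempty Ω := ⟨x.1 0⟩
  let : TopologicalSpace Ω := Preorder.topology Ω
  have : OrderTopology Ω := ⟨rfl⟩
  have : CompactIccSpace Ω := by
    let := WellFoundedLT.toOrderBot Ω
    let := WellFoundedLT.conditionallyCompleteLinearOrderBot Ω
    infer_instance
  have hop : ∀ b : Ω, IsOpen (Set.Iic b) := by
    intro b
    obtain ⟨s, hs1, hs2⟩ := exists_least (fun s => b < s) (exists_above b)
    have : Set.Iic b = Set.Iio s := by
      ext c
      simp only [Set.mem_Iic, Set.mem_Iio]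
      exact ⟨fun h => h.trans_lt hs1, fun h => not_lt.1 fun h' => absurd (hs2 c h') (not_le.2 h)⟩
    rw [this]; exact isOpen_Iio
  have hcomp : IsCompact (Set.pi Set.univ fun i => Set.Icc (x.1 i) (x.1 (i+1))) :=
    isCompact_univ_pi fun i => isCompact_Icc
  have hcl : IsClosed (KK e x.1) := by
    have : KK e x.1 = ⋂ i, ({w : ℕ → Ω | w i ∈ Set.Icc (x.1 i) (x.1 (i+1))} ∩
        ({w : ℕ → Ω | w (i+1) ∈ Set.Ioi (x.1 (i+1))} ∪
          {w : ℕ → Ω | w i ∈ {b | b < x.1 (i+1) ∧ e (x.1 (i+1)) b ≤ e (x.1 (i+1)) (x.1 i)}})) := by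
      ext w
      simp only [KK, Set.mem_ofPred_eq, Set.mem_iInter, Set.mem_inter_iff, Set.mem_union,
        Set.mem_Icc, Set.mem_Ioi]
    rw [this]
    refine isClosed_iInter fun i => ?_
    refine (isClosed_Icc.preimage (continuous_apply i)).inter
      (IsClosed.union ?_ ?_)
    · have h2 : IsClosed (Set.Ioi (x.1 (i+1))) := by
        rw [← Set.compl_Iic]; exact (hop _).isClosed_compl
      exact h2.preimage (continuous_apply (i+1))
    · exact (finite_below he (x.1 (i+1)) _).isClosed.preimage (continuous_apply i)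
  have hK : IsCompact (KK e x.1) := by
    refine hcomp.of_isClosed_subset hcl fun w hw => ?_
    intro i _
    exact (hw i).1
  obtain ⟨Z, hZ⟩ := hK.elim_finite_subcover
    (fun z : X Ω => {w : ℕ → Ω | ∀ i < ν z, β z i < w i ∧ w i ≤ z.1 i}) (fun z => by
      have : {w : ℕ → Ω | ∀ i < ν z, β z i < w i ∧ w i ≤ z.1 i} =
          ⋂ i ∈ Set.Iio (ν z), {w : ℕ → Ω | w i ∈ Set.Ioi (β z i) ∩ Set.Iic (z.1 i)} := by
        ext w
        simp
      rw [this]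
      exact (Set.finite_Iio _).isOpen_biInter fun i _ =>
        ((isOpen_Ioi).inter (hop _)).preimage (continuous_apply i))
    (fun w hw => Set.mem_iUnion.2 ⟨⟨w, KK_mem_X x hw⟩, fun i _ => ⟨hβ _ i, le_rfl⟩⟩)
  refine ⟨Z, fun w hw => ?_⟩
  obtain ⟨z, hz, hwz⟩ := Set.mem_iUnion₂.1 (hZ hw)
  exact ⟨z, hz, hwz⟩

end compact

end Pool.Agent.Helper83.MC
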