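import Pool.Agent.Helper83.MC4

set_option autoImplicit false

namespace Pool.Agent.Helper83.MC

theorem cushion_of_nbhds {Y : Type} [TopologicalSpace Y] (D : Set (Set Y)) (φ : Y → Set Y)
    (hφ : ∀ x, φ x ∈ D) (N : Y → Set Y) (hN : ∀ y, IsOpen (N y)) (hyN : ∀ y, y ∈ N y)
    (h : ∀ y, ∀ x ∈ N y, y ∈ φ x) :
    ∃ R : Set (Set Y), ⋃₀ R = Set.univ ∧ ∃ f : Set Y → Set Y, (∀ V ∈ R, f V ∈ D) ∧
      ∀ W ⊆ R, closure (⋃₀ W) ⊆ ⋃₀ (f '' W) := by
  have h1 : ∀ V : Set Y, ∃ F : Set Y, V ∈ Set.range (fun z => {w | φ w = φ z}) →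
      F ∈ D ∧ ∀ x ∈ V, φ x = F := by
    intro V
    by_cases hV : V ∈ Set.range (fun z => {w | φ w = φ z})
    · obtain ⟨z, hz⟩ := hV
      exact ⟨φ z, fun _ => ⟨hφ z, fun x hx => by rw [← hz] at hx; exact hx⟩⟩
    · exact ⟨∅, fun h => absurd h hV⟩
  choose f hf using h1
  refine ⟨Set.range (fun z => {w | φ w = φ z}), ?_, f, fun V hV => (hf V hV).1, ?_⟩
  · refine Set.eq_univ_of_forall fun z => ⟨{w | φ w = φ z}, ⟨z, rfl⟩, rfl⟩
  · intro W hW y hy
    obtain ⟨x, hxN, V, hVW, hxV⟩ := mem_closure_iff.1 hy (N y) (hN y) (hyN y)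
    refine ⟨f V, ⟨V, hVW, rfl⟩, ?_⟩
    rw [← (hf V (hW hVW)).2 x hxV]
    exact h y x hxN

theorem directed_finite {Y ι : Type} {D : Set (Set Y)} (hD : DirectedOn (· ⊆ ·) D)
    (hne : D.Nonempty) (F : ι → Set Y) (hF : ∀ i, F i ∈ D) {E : Set ι} (hE : E.Finite) :
    ∃ S ∈ D, ∀ i ∈ E, F i ⊆ S := by
  induction E, hE using Set.Finite.induction_on with
  | empty =>
    obtain ⟨S, hS⟩ := hne
    exact ⟨S, hS, fun i hi => absurd hi (Set.notMem_empty i)⟩
  | insert _ _ ih =>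
    rename_i a E _ _
    obtain ⟨S, hS, h1⟩ := ih
    obtain ⟨S', hS', h2, h3⟩ := hD S hS (F a) (hF a)
    refine ⟨S', hS', fun i hi => ?_⟩
    rcases hi with rfl | hi
    · exact h3
    · exact (h1 i hi).trans h2

section main
variable {Ω : Type} [LinearOrder Ω]

def leaf (T : ℕ → List (Ω × Ω) → Ω) (G : ℕ → List (Ω × Ω) → Ω → Ω) (U : List (Ω × Ω) → X Ω) :
    ℕ → List (Ω × Ω) → (ℕ → Ω) → X Ω
  | 0, p, _ => U p
  | d+1, p, x => leaf T G U d ((G d p (x (p.length + 1)), T d p) :: p) x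

theorem descent {ν : X Ω → ℕ} {β : X Ω → ℕ → Ω} (hβ : ∀ u i, β u i < u.1 i)
    {T : ℕ → List (Ω × Ω) → Ω} {G : ℕ → List (Ω × Ω) → Ω → Ω} {U : List (Ω × Ω) → X Ω}
    (hTG : ∀ d p, L ν β (fun _ => True) (d+1) p → ∀ a, a < G d p a ∧
      L ν β (fun _ => True) d ((G d p a, T d p) :: p))
    (hU : ∀ p, L ν β (fun _ => True) 0 p → ν (U p) ≤ p.length ∧ Mt (U p).1 (β (U p)) p)
    {nxt : Ω → Ω} (hn1 : ∀ a, a < nxt a) (hn2 : ∀ a b, a ≤ b → nxt a ≤ nxt b)
    (hn3 : ∀ a d p, (∀ e ∈ p, e.1 < nxt a ∧ e.2 < nxt a) →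
        T d p < nxt a ∧ ∀ a' < nxt a, G d p a' < nxt a) (x y : X Ω) :
    ∀ d p, L ν β (fun _ => True) d p → Fit y.1 p →
      (0 < d → ∀ e ∈ p, e.1 < nxt (x.1 p.length) ∧ e.2 < nxt (x.1 p.length)) →
      (∀ i, p.length ≤ i → i < p.length + d → nxt (x.1 i) ≤ y.1 i ∧ y.1 i < x.1 (i+1)) →
      y ∈ Nb (leaf T G U d p x.1) (ν (leaf T G U d p x.1)) (β (leaf T G U d p x.1))
  | 0, p, hL, hf, _, _ => by
    obtain ⟨h1, h2⟩ := hU p hL
    exact mem_Nb_of_fit (hβ _) h2 hf h1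
  | d+1, p, hL, hf, he, hi => by
    obtain ⟨h1, h2⟩ := hTG d p hL (x.1 (p.length + 1))
    have h3 := he (Nat.succ_pos d)
    obtain ⟨h4, h5⟩ := hi p.length le_rfl (by omega)
    have h6 := (hn3 _ d p h3).1
    have hmono : nxt (x.1 p.length) ≤ nxt (x.1 (p.length + 1)) :=
      hn2 _ _ (x.lt (Nat.lt_succ_self _)).le
    refine descent hβ hTG hU hn1 hn2 hn3 x y d _ h2 ?_ ?_ ?_
    · exact ⟨Or.inl ⟨h6.trans_le h4, (h5.trans h1).le⟩, hf⟩
    · intro _ e hem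
      have h7 : ∀ e ∈ p, e.1 < nxt (x.1 (p.length + 1)) ∧ e.2 < nxt (x.1 (p.length + 1)) :=
        fun e he' => ⟨(h3 e he').1.trans_le hmono, (h3 e he').2.trans_le hmono⟩
      rcases List.mem_cons.1 hem with rfl | hem
      · exact ⟨(hn3 _ d p h7).2 _ (hn1 _), h6.trans_le hmono⟩
      · exact h7 e hem
    · intro i h8 h9
      simp only [List.length_cons] at h8 h9
      exact hi i (by omega) (by omega)

def Desc (e : Ω → Ω → ℕ) (x : ℕ → Ω) : ℕ → Ω → Set (List Ω)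
  | 0, _ => {[]}
  | k+1, h => {l | ∃ b, (b < h ∧ e h b ≤ e h (x k)) ∧ ∃ q ∈ Desc e x k b, l = b :: q}

theorem Desc_finite {e : Ω → Ω → ℕ} (he : ∀ δ, Set.InjOn (e δ) (Set.Iio δ)) [Om Ω] (x : ℕ → Ω) :
    ∀ k h, (Desc e x k h).Finite
  | 0, _ => Set.finite_singleton _
  | k+1, h => by
    have h1 : Desc e x (k+1) h ⊆ ⋃ b ∈ {b | b < h ∧ e h b ≤ e h (x k)},
        (fun q => b :: q) '' Desc e x k b := by
      rintro l ⟨b, hb, q, hq, rfl⟩
      exact Set.mem_biUnion hb ⟨q, hq, rfl⟩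
    exact ((finite_below he h _).biUnion fun b _ => (Desc_finite he x k b).image _).subset h1

def KS (e : Ω → Ω → ℕ) (nxt : Ω → Ω) (x : ℕ → Ω) : ℕ → Set (List Ω)
  | 0 => {[]}
  | k+1 => Desc e x (k+1) (nxt (x k))

theorem KS_finite {e : Ω → Ω → ℕ} (he : ∀ δ, Set.InjOn (e δ) (Set.Iio δ)) [Om Ω] (nxt : Ω → Ω)
    (x : ℕ → Ω) : ∀ k, (KS e nxt x k).Finite
  | 0 => Set.finite_singleton _
  | k+1 => Desc_finite he x _ _

theorem mem_hat {τ : List Ω} {c : Ω × Ω} (h : c ∈ hat τ) : c.1 ∈ τ ∧ c.2 = c.1 := by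
  simp only [hat, List.mem_map] at h
  obtain ⟨g, hg, rfl⟩ := h
  exact ⟨hg, rfl⟩

theorem mem_stem {y : ℕ → Ω} {g : Ω} : ∀ m, g ∈ stem y m → ∃ j < m, g = y j
  | 0, h => absurd h List.not_mem_nil
  | m+1, h => by
    rcases List.mem_cons.1 h with h | h
    · exact ⟨m, Nat.lt_succ_self m, h⟩
    · obtain ⟨j, hj, h'⟩ := mem_stem m h
      exact ⟨j, hj.trans (Nat.lt_succ_self m), h'⟩

theorem exists_beta [Om Ω] {e : Ω → Ω → ℕ} (he : ∀ δ, Set.InjOn (e δ) (Set.Iio δ))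
    {nxt : Ω → Ω} (hn1 : ∀ a, a < nxt a)
    (hn4 : ∀ y : Ω, (∃ b, b < y) → (∀ x < y, nxt x ≤ y) ∨
        ∃ b < y, ∀ x, b < x → x < y → nxt x = nxt y) (y : X Ω) (i : ℕ) :
    ∃ b < y.1 i, (∀ j, i = j + 1 → y.1 j ≤ b) ∧
      ((∀ x < y.1 i, nxt x ≤ y.1 i) ∨ ∀ x, b < x → x < y.1 i → nxt x = nxt (y.1 i) ∧
        e (nxt (y.1 i)) (y.1 i) ≤ e (nxt (y.1 i)) x) ∧
      ∀ x, b < x → x < y.1 i → e (y.1 (i+1)) (y.1 i) ≤ e (y.1 (i+1)) x := by
  obtain ⟨l, hl⟩ := exists_low y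
  have h0 : ∃ b < y.1 i, ∀ j, i = j + 1 → y.1 j ≤ b := by
    cases i with
    | zero => exact ⟨l 0, hl 0, fun j hj => by omega⟩
    | succ k => exact ⟨y.1 k, y.lt (Nat.lt_succ_self k), fun j hj => by
        have : j = k := by omega
        rw [this]⟩
  obtain ⟨b0, hb0, hb0'⟩ := h0
  obtain ⟨b1, hb1, hb1'⟩ := exists_gap he (nxt (y.1 i)) (y.1 i) (hn1 _) ⟨l i, hl i⟩
  obtain ⟨b2, hb2, hb2'⟩ := exists_gap he (y.1 (i+1)) (y.1 i) (y.lt (Nat.lt_succ_self i)) ⟨l i, hl i⟩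
  rcases hn4 (y.1 i) ⟨l i, hl i⟩ with h | ⟨b3, hb3, hb3'⟩
  · refine ⟨max b0 b2, max_lt hb0 hb2, fun j hj => (hb0' j hj).trans (le_max_left _ _), Or.inl h, ?_⟩
    intro x hx1 hx2
    exact hb2' x ((le_max_right _ _).trans_lt hx1) hx2
  · refine ⟨max (max b0 b1) (max b2 b3), max_lt (max_lt hb0 hb1) (max_lt hb2 hb3),
      fun j hj => (hb0' j hj).trans ((le_max_left _ _).trans (le_max_left _ _)), Or.inr ?_, ?_⟩
    · intro x hx1 hx2
      exact ⟨hb3' x (((le_max_right _ _).trans (le_max_right _ _)).trans_lt hx1) hx2,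
        hb1' x (((le_max_right _ _).trans (le_max_left _ _)).trans_lt hx1) hx2⟩
    · intro x hx1 hx2
      exact hb2' x (((le_max_left _ _).trans (le_max_right _ _)).trans_lt hx1) hx2

end main

section cushion
variable {Ω : Type} [LinearOrder Ω] [Om Ω]

theorem cushioned (D : Set (Set (X Ω))) (hDo : ∀ U ∈ D, IsOpen U) (hDc : ⋃₀ D = Set.univ)
    (hDd : DirectedOn (· ⊆ ·) D) (hne : Nonempty (X Ω)) :
    ∃ R : Set (Set (X Ω)), ⋃₀ R = Set.univ ∧ ∃ f : Set (X Ω) → Set (X Ω), (∀ V ∈ R, f V ∈ D) ∧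
      ∀ W ⊆ R, closure (⋃₀ W) ⊆ ⋃₀ (f '' W) := by
  classical
  -- data of the cover
  have h1 : ∀ u : X Ω, ∃ V ∈ D, u ∈ V := fun u => by
    have : u ∈ ⋃₀ D := by rw [hDc]; trivial
    exact this
  choose V hVD hV using h1
  have h2 : ∀ u : X Ω, ∃ (n : ℕ) (b : ℕ → Ω), (∀ i, b i < u.1 i) ∧ Nb u n b ⊆ V u :=
    fun u => (isOpen_iff' _).1 (hDo _ (hVD u)) u (hV u)
  choose ν β hβ hN using h2
  have hDne : D.Nonempty := ⟨V hne.some, hVD _⟩
  -- depth
  have h3 : ∀ τ : List Ω, ∃ d, (∃ d, L ν β (fun _ => True) d (hat τ)) →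
      L ν β (fun _ => True) d (hat τ) ∧ ∀ d', L ν β (fun _ => True) d' (hat τ) → d ≤ d' := by
    intro τ
    by_cases h : ∃ d, L ν β (fun _ => True) d (hat τ)
    · exact ⟨Nat.find h, fun _ => ⟨Nat.find_spec h, fun d' hd' => Nat.find_min' h hd'⟩⟩
    · exact ⟨0, fun h' => absurd h' h⟩
  choose dd hdd using h3
  -- witnesses
  have h4 : ∀ (d : ℕ) (p : List (Ω × Ω)), ∃ (t : Ω) (g : Ω → Ω), L ν β (fun _ => True) (d+1) p →
      ∀ a, a < g a ∧ L ν β (fun _ => True) d ((g a, t) :: p) := by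
    intro d p
    by_cases h : L ν β (fun _ => True) (d+1) p
    · obtain ⟨t, ht⟩ := h
      choose g hg using ht
      exact ⟨t, g, fun _ => hg⟩
    · exact ⟨hne.some.1 0, id, fun h' => absurd h' h⟩
  choose T G hTG using h4
  have h5 : ∀ p : List (Ω × Ω), ∃ u : X Ω, L ν β (fun _ => True) 0 p →
      ν u ≤ p.length ∧ Mt u.1 (β u) p := by
    intro p
    by_cases h : L ν β (fun _ => True) 0 p
    · obtain ⟨u, _, hu⟩ := h
      exact ⟨u, fun _ => hu⟩
    · exact ⟨hne.some, fun h' => absurd h' h⟩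
  choose U hU using h5
  obtain ⟨nxt, hn1, hn2, hn3, hn4⟩ := exists_nxt T G
  obtain ⟨e, he⟩ := exists_enum (Ω := Ω)
  choose β' hβ1 hβc hβa hβb using exists_beta he hn1 hn4
  -- the length of the neighbourhood of `y`
  have h6 : ∀ y : X Ω, ∃ n, ∀ m, dd (stem y.1 m) ≠ 0 → m + dd (stem y.1 m) < n := by
    intro y
    refine ⟨1 + ∑ m ∈ Finset.range (ν y), (m + dd (stem y.1 m)), fun m hm => ?_⟩
    have hmν : m < ν y := by
      by_contra hcon
      push Not at hcon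
      have h7 : L ν β (fun _ => True) 0 (hat (stem y.1 m)) := by
        refine ⟨y, trivial, ?_, mt_hat_stem (hβ y) m fun i _ => rfl⟩
        rw [length_hat, length_stem]; exact hcon
      have := (hdd _ ⟨0, h7⟩).2 0 h7
      omega
    have h7 : m + dd (stem y.1 m) ≤ ∑ m ∈ Finset.range (ν y), (m + dd (stem y.1 m)) :=
      Finset.single_le_sum (f := fun m => m + dd (stem y.1 m)) (fun i _ => Nat.zero_le _)
        (Finset.mem_range.2 hmν)
    omega
  choose ν' hν' using h6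
  -- compact covers
  have h8 := fun x : X Ω => compact_cover (ν := ν) he hβ x
  choose Z hZ using h8
  let J : X Ω → ℕ := fun x => (Z x).sup ν
  have hJ : ∀ x, ∀ z ∈ Z x, ν z ≤ J x := fun x z hz => Finset.le_sup hz
  let E : X Ω → Set (X Ω) := fun x => (↑(Z x) : Set (X Ω)) ∪
    ⋃ m ∈ Set.Iic (J x), (fun τ => leaf T G U (dd τ) (hat τ) x.1) '' KS e nxt x.1 m
  have hE : ∀ x, (E x).Finite := fun x => (Z x).finite_toSet.union
    ((Set.finite_Iic _).biUnion fun m _ => (KS_finite he nxt x.1 m).image _)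
  have hφ : ∀ x, ∃ S ∈ D, ∀ z ∈ E x, V z ⊆ S := fun x =>
    directed_finite hDd hDne V hVD (hE x)
  choose φ hφD hφE using hφ
  refine cushion_of_nbhds D φ hφD (fun y => Nb y (ν' y) (β' y)) (fun y => isOpen_Nb _ _ _)
    (fun y i _ => ⟨hβ1 y i, le_rfl⟩) ?_
  intro y x hx
  suffices hmain : ∃ z ∈ E x, y ∈ Nb z (ν z) (β z) by
    obtain ⟨z, hz1, hz2⟩ := hmain
    exact hφE x z hz1 (hN z hz2)
  have hxlt : ∀ i, i + 1 < ν' y → y.1 i < x.1 (i+1) := fun i hi =>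
    (hβc y (i+1) i rfl).trans_lt (hx (i+1) hi).1
  rcases le_or_gt (ν' y) (J x) with hle | hlt
  · -- tree witnesses
    let known : ℕ → Prop := fun i => x.1 i = y.1 i ∨ ¬ ∀ c < y.1 i, nxt c ≤ y.1 i
    have hex : ∃ m, ∀ i, m ≤ i → i < ν' y → ¬ known i := ⟨ν' y, fun i h h' => absurd h' (not_lt.2 h)⟩
    obtain ⟨m, hm1, hm2⟩ : ∃ m, (∀ i, m ≤ i → i < ν' y → ¬ known i) ∧
        (∀ k, m = k + 1 → k < ν' y ∧ known k) := by
      refine ⟨Nat.find hex, Nat.find_spec hex, fun k hk => ?_⟩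
      have h9 := Nat.find_min hex (m := k) (by omega)
      push Not at h9
      obtain ⟨i, hi1, hi2, hi3⟩ := h9
      have h10 := Nat.find_spec hex i
      have h11 : i = k := by
        by_contra hne'
        exact h10 (by omega) hi2 hi3
      rw [← h11]; exact ⟨hi2, hi3⟩
    have hmν : m ≤ ν' y := by
      cases m with
      | zero => exact Nat.zero_le _
      | succ k => exact (hm2 k rfl).1
    -- the stem belongs to the finite set
    have hdesc : ∀ k, k < ν' y → stem y.1 k ∈ Desc e x.1 k (y.1 k) := by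
      intro k
      induction k with
      | zero => intro _; exact rfl
      | succ k ih =>
        intro hk
        refine ⟨y.1 k, ⟨y.lt (Nat.lt_succ_self k), ?_⟩, stem y.1 k, ih (by omega), rfl⟩
        have h12 := hx k (by omega)
        rcases h12.2.lt_or_eq with h | h
        · exact hβb y k _ h12.1 h
        · rw [h]
    have hKS : stem y.1 m ∈ KS e nxt x.1 m := by
      cases m with
      | zero => exact rfl
      | succ k =>
        obtain ⟨hk1, hk2⟩ := hm2 k rfl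
        have h12 := hx k hk1
        have h13 : y.1 k < nxt (x.1 k) ∧ e (nxt (x.1 k)) (y.1 k) ≤ e (nxt (x.1 k)) (x.1 k) := by
          rcases h12.2.lt_or_eq with h | h
          · have h14 : ¬ ∀ c < y.1 k, nxt c ≤ y.1 k := by
              rcases hk2 with h' | h'
              · exact absurd h' h.ne
              · exact h'
            rcases hβa y k with h15 | h15
            · exact absurd h15 h14
            · obtain ⟨h16, h17⟩ := h15 _ h12.1 h
              rw [h16]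
              exact ⟨hn1 _, h17⟩
          · rw [h]; exact ⟨hn1 _, le_rfl⟩
        exact ⟨y.1 k, h13, stem y.1 k, hdesc k hk1, rfl⟩
    refine ⟨leaf T G U (dd (stem y.1 m)) (hat (stem y.1 m)) x.1, Or.inr
      (Set.mem_biUnion (show m ∈ Set.Iic (J x) from hmν.trans hle) ⟨_, hKS, rfl⟩), ?_⟩
    have hlen : (hat (stem y.1 m)).length = m := by rw [length_hat, length_stem]
    refine descent hβ hTG hU hn1 hn2 hn3 x y (dd (stem y.1 m)) (hat (stem y.1 m))
      (hdd _ (L.exists_depth hβ y m)).1 (fit_hat_stem y.1 m) ?_ ?_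
    · intro hpos c hc
      obtain ⟨h18, h19⟩ := mem_hat hc
      obtain ⟨j, hj, h20⟩ := mem_stem m h18
      have h21 := hν' y m (by omega)
      rw [h19, hlen, h20]
      have h22 : y.1 j < nxt (x.1 m) := by
        obtain ⟨k, rfl⟩ : ∃ k, m = k + 1 := ⟨m - 1, by omega⟩
        have h23 : y.1 j ≤ y.1 k := y.2.1.monotone (by omega)
        exact (h23.trans_lt (hxlt k (by omega))).trans (hn1 _)
      exact ⟨h22, h22⟩
    · intro i hi1 hi2
      rw [hlen] at hi1 hi2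
      have h21 := hν' y m (by omega)
      refine ⟨?_, hxlt i (by omega)⟩
      have h24 := hm1 i hi1 (by omega)
      simp only [known, not_or, not_not] at h24
      exact h24.2 _ (lt_of_le_of_ne (hx i (by omega)).2 h24.1)
  · -- compactness witnesses
    let w : ℕ → Ω := fun i => if i < J x then y.1 i else x.1 (i+1)
    have hw1 : ∀ i, i < J x → w i = y.1 i := fun i hi => if_pos hi
    have hw2 : ∀ i, ¬ i < J x → w i = x.1 (i+1) := fun i hi => if_neg hi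
    have hwK : w ∈ KK e x.1 := by
      intro i
      by_cases hi : i < J x
      · have h25 := hx i (by omega)
        have h26 := hxlt i (by omega)
        rw [hw1 i hi]
        refine ⟨⟨h25.2, h26.le⟩, ?_⟩
        by_cases hi' : i + 1 < J x
        · rw [hw1 _ hi']
          have h27 := hx (i+1) (by omega)
          rcases h27.2.lt_or_eq with h | h
          · exact Or.inl h
          · refine Or.inr ⟨h26, ?_⟩
            rw [h]
            rcases h25.2.lt_or_eq with h' | h'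
            · exact hβb y i _ h25.1 h'
            · rw [h']
        · rw [hw2 _ hi']
          exact Or.inl (x.lt (Nat.lt_succ_self _))
      · rw [hw2 i hi, hw2 (i+1) (by omega)]
        exact ⟨⟨(x.lt (Nat.lt_succ_self i)).le, le_rfl⟩, Or.inl (x.lt (Nat.lt_succ_self _))⟩
    obtain ⟨z, hz1, hz2⟩ := hZ x ⟨w, KK_mem_X x hwK⟩ hwK
    refine ⟨z, Or.inl hz1, fun i hi => ?_⟩
    have h28 := hz2 i hi
    have h29 : w i = y.1 i := hw1 i (hi.trans_le (hJ x z hz1))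
    rw [← h29]
    exact h28

end cushion

end Pool.Agent.Helper83.MC
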