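import Pool.Agent.Helper83.MC1

set_option autoImplicit false

open Set Topology

namespace Pool.Agent.Helper83.MC

section
variable {Ω : Type} [LinearOrder Ω]

theorem self_mem_Nb {y : X Ω} {n : ℕ} {β : ℕ → Ω} (h : ∀ i, β i < y.1 i) : y ∈ Nb y n β :=
  fun i _ => ⟨h i, le_rfl⟩

theorem mem_nhds_iff' (y : X Ω) (U : Set (X Ω)) :
    U ∈ 𝓝 y ↔ ∃ (n : ℕ) (β : ℕ → Ω), (∀ i, β i < y.1 i) ∧ Nb y n β ⊆ U := by
  rw [mem_nhds_iff]
  constructor
  · rintro ⟨V, hVU, hV, hy⟩
    obtain ⟨n, β, h1, h2⟩ := (isOpen_iff' V).1 hV y hy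
    exact ⟨n, β, h1, h2.trans hVU⟩
  · rintro ⟨n, β, h1, h2⟩
    exact ⟨Nb y n β, h2, isOpen_Nb y n β, self_mem_Nb h1⟩

theorem isClopen_Nb (y : X Ω) (n : ℕ) (β : ℕ → Ω) : IsClopen (Nb y n β) := by
  refine ⟨⟨?_⟩, isOpen_Nb y n β⟩
  intro x hx
  have hx' : ¬ ∀ i < n, β i < x.1 i ∧ x.1 i ≤ y.1 i := hx
  push Not at hx'
  obtain ⟨i, hi, h⟩ := hx'
  obtain ⟨l, hl⟩ := exists_low x
  rcases lt_or_ge (β i) (x.1 i) with h1 | h1
  · have h2 := h h1
    refine ⟨i + 1, fun j => if j = i then y.1 i else l j, fun j => ?_, fun z hz hz' => ?_⟩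
    · dsimp only
      split_ifs with h3
      · rw [h3]; exact h2
      · exact hl j
    · have h4 := (hz i (Nat.lt_succ_self i)).1
      simp only [if_true] at h4
      exact absurd (hz' i hi).2 (not_le.2 h4)
  · refine ⟨i + 1, l, hl, fun z hz hz' => ?_⟩
    have h4 := (hz i (Nat.lt_succ_self i)).2
    exact absurd (hz' i hi).1 (not_lt.2 (h4.trans h1))

theorem t2X : T2Space (X Ω) := by
  have key : ∀ x y : X Ω, ∀ i, x.1 i < y.1 i → ∃ u v : Set (X Ω), IsOpen u ∧ IsOpen v ∧ x ∈ u ∧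
      y ∈ v ∧ Disjoint u v := by
    intro x y i h
    obtain ⟨lx, hlx⟩ := exists_low x
    obtain ⟨ly, hly⟩ := exists_low y
    have hb : ∀ j, (fun j => if j = i then x.1 i else ly j) j < y.1 j := by
      intro j
      dsimp only
      split_ifs with h3
      · rw [h3]; exact h
      · exact hly j
    refine ⟨Nb x (i + 1) lx, Nb y (i + 1) (fun j => if j = i then x.1 i else ly j),
      isOpen_Nb _ _ _, isOpen_Nb _ _ _, self_mem_Nb hlx, self_mem_Nb hb, ?_⟩
    rw [Set.disjoint_left]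
    intro z hz hz'
    have h1 := (hz i (Nat.lt_succ_self i)).2
    have h2 := (hz' i (Nat.lt_succ_self i)).1
    simp only [if_true] at h2
    exact absurd h1 (not_le.2 h2)
  refine ⟨fun x y hxy => ?_⟩
  have h1 : ∃ i, x.1 i ≠ y.1 i := by
    by_contra hcon
    push Not at hcon
    exact hxy (Subtype.ext (funext hcon))
  obtain ⟨i, hi⟩ := h1
  rcases lt_or_gt_of_ne hi with h | h
  · exact key x y i h
  · obtain ⟨u, v, a, b, c, d, e⟩ := key y x i h
    exact ⟨v, u, b, a, d, c, e.symm⟩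

/-- the clopen sets form a base -/
theorem basisX : TopologicalSpace.IsTopologicalBasis {U : Set (X Ω) | IsClopen U} := by
  refine TopologicalSpace.isTopologicalBasis_of_isOpen_of_nhds (fun U hU => hU.isOpen) ?_
  intro a U ha hU
  obtain ⟨n, β, h1, h2⟩ := (isOpen_iff' U).1 hU a ha
  exact ⟨Nb a n β, isClopen_Nb a n β, self_mem_Nb h1, h2⟩

theorem completelyRegularX : CompletelyRegularSpace (X Ω) := by
  refine ⟨fun x K hK hx => ?_⟩
  obtain ⟨n, β, h1, h2⟩ := (isOpen_iff' Kᶜ).1 hK.isOpen_compl x hx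
  have hcl := isClopen_Nb x n β
  classical
  refine ⟨fun z => if z ∈ Nb x n β then 0 else 1, ?_, ?_, ?_⟩
  · have hc : IsLocallyConstant (fun z : X Ω => if z ∈ Nb x n β then (0 : unitInterval) else 1) := by
      rw [IsLocallyConstant.iff_exists_open]
      intro z
      by_cases hz : z ∈ Nb x n β
      · exact ⟨Nb x n β, hcl.isOpen, hz, fun w hw => by simp only [if_pos hw, if_pos hz]⟩
      · exact ⟨(Nb x n β)ᶜ, hcl.compl.isOpen, hz, fun w hw => by
          simp only [if_neg (show w ∉ Nb x n β from hw), if_neg hz]⟩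
    exact hc.continuous
  · exact if_pos (self_mem_Nb h1)
  · intro z hz
    have : z ∉ Nb x n β := fun h => h2 h hz
    simp only [if_neg this, Pi.one_apply]

theorem firstCountableX [Om Ω] : FirstCountableTopology (X Ω) := by
  refine ⟨fun y => ?_⟩
  let S : Set (Set (X Ω)) := ⋃ i : ℕ, ⋃ b ∈ Set.Iio (y.1 i), {{x : X Ω | b < x.1 i ∧ x.1 i ≤ y.1 i}}
  have hS : S.Countable := by
    refine Set.countable_iUnion fun i => ?_
    exact (Om.cnt (y.1 i)).biUnion fun b _ => Set.countable_singleton _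
  refine ⟨S, hS, ?_⟩
  ext U
  rw [mem_nhds_iff', Filter.mem_generate_iff]
  constructor
  · rintro ⟨n, β, h1, h2⟩
    refine ⟨(fun i : ℕ => {x : X Ω | β i < x.1 i ∧ x.1 i ≤ y.1 i}) '' (Set.Iio n), ?_,
      (Set.finite_Iio n).image _, ?_⟩
    · rintro _ ⟨i, hi, rfl⟩
      exact Set.mem_iUnion.2 ⟨i, Set.mem_biUnion (show β i ∈ Set.Iio (y.1 i) from h1 i) rfl⟩
    · intro x hx
      apply h2
      intro i hi
      exact hx _ ⟨i, hi, rfl⟩
  · rintro ⟨t, ht, htf, htU⟩
    have h3 : ∀ V ∈ t, V ∈ 𝓝 y := by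
      intro V hV
      obtain ⟨i, hi⟩ := Set.mem_iUnion.1 (ht hV)
      obtain ⟨b, hb, hV'⟩ := Set.mem_iUnion₂.1 hi
      rw [Set.mem_singleton_iff] at hV'
      obtain ⟨l, hl⟩ := exists_low y
      rw [mem_nhds_iff']
      refine ⟨i + 1, fun j => if j = i then b else l j, fun j => ?_, fun z hz => ?_⟩
      · dsimp only
        split_ifs with h3
        · rw [h3]; exact hb
        · exact hl j
      · rw [hV']
        have h4 := hz i (Nat.lt_succ_self i)
        simp only [if_true] at h4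
        exact h4
    have h4 : ⋂₀ t ∈ 𝓝 y := (Filter.sInter_mem htf).2 h3
    exact (mem_nhds_iff' y U).1 (Filter.mem_of_superset h4 htU)

end

end Pool.Agent.Helper83.MC
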