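import Pool.Agent.Helper83.SGDefs

/-!
# Extension lemma for strong Gurarii spaces
-/

namespace Pool.Agent.Helper83.SG

open Cardinal

universe u

variable {V : Type u} [NormedAddCommGroup V] [NormedSpace ℝ V]

/-- The working form of the definition: a finite-dimensional subspace `G` of `V` embedded
isometrically in some normed space `Z` (in the same universe), and finitely many vectors of `Z`,
can be copied in `V` over `G`. -/
theorem ext_lemma (hV : IsStrongGurarii V)
    {Z : Type u} [NormedAddCommGroup Z] [NormedSpace ℝ Z]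
    (G : Submodule ℝ V) [FiniteDimensional ℝ G] (T : G →ₗᵢ[ℝ] Z)
    {W : Type*} [AddCommGroup W] [Module ℝ W] [FiniteDimensional ℝ W] (S : W →ₗ[ℝ] Z) :
    ∃ j : W →ₗ[ℝ] V, ∀ (g : G) (w : W), ‖(g : V) + j w‖ = ‖T g + S w‖ := by
  classical
  let R : Submodule ℝ Z := LinearMap.range T.toLinearMap
  let Y : Submodule ℝ Z := R ⊔ LinearMap.range S
  haveI : FiniteDimensional ℝ R := inferInstanceAs (FiniteDimensional ℝ (LinearMap.range T.toLinearMap))
  haveI : FiniteDimensional ℝ Y := inferInstanceAs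
    (FiniteDimensional ℝ ((LinearMap.range T.toLinearMap ⊔ LinearMap.range S : Submodule ℝ Z)))
  have hRY : R ≤ Y := le_sup_left
  have hSY : LinearMap.range S ≤ Y := le_sup_right
  let X : Submodule ℝ Y := R.comap Y.subtype
  -- the inverse of `T`, defined on `X`
  let e : X →ₗᵢ[ℝ] R :=
    { toLinearMap := (Y.subtype.domRestrict X).codRestrict R (fun x => x.2)
      norm_map' := fun x => rfl }
  let f : X →ₗᵢ[ℝ] V := G.subtypeₗᵢ.comp ((T.equivRange.symm.toLinearIsometry).comp e)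
  obtain ⟨g, hg⟩ := hV Y X f
  let S' : W →ₗ[ℝ] Y := S.codRestrict Y (fun w => hSY ⟨w, rfl⟩)
  refine ⟨g.toLinearMap.comp S', fun h w => ?_⟩
  have h1 : (T h : Z) ∈ R := ⟨h, rfl⟩
  have h2 : (T h : Z) ∈ Y := hRY h1
  have h3 : g ⟨T h, h2⟩ = (h : V) := by
    have := hg ⟨⟨T h, h2⟩, h1⟩
    rw [show ((⟨⟨T h, h2⟩, h1⟩ : X) : Y) = ⟨T h, h2⟩ from rfl] at this
    rw [this]
    have h4 : e ⟨⟨T h, h2⟩, h1⟩ = T.equivRange h := by
      apply Subtype.ext
      rfl
    show ((T.equivRange.symm (e ⟨⟨T h, h2⟩, h1⟩) : G) : V) = h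
    rw [h4]
    simp
  have h5 : (h : V) + (g.toLinearMap.comp S') w = g (⟨T h, h2⟩ + S' w) := by
    rw [map_add, h3]
    rfl
  rw [h5, g.norm_map]
  rfl

end Pool.Agent.Helper83.SG
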