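import Pool.Agent.Helper83.SG1

/-!
# Ball intersection property of strong Gurarii spaces, and the two one-step extensions
-/

namespace Pool.Agent.Helper83.SG

open Cardinal Metric
open scoped ENNReal

universe u

variable {V : Type u} [NormedAddCommGroup V] [NormedSpace ℝ V]

/-- index set: the closed unit ball of the dual -/
abbrev BallDual (V : Type u) [NormedAddCommGroup V] [NormedSpace ℝ V] : Type u :=
  {φ : V →L[ℝ] ℝ // ‖φ‖ ≤ 1}

theorem ballDual_le (φ : BallDual V) (v : V) : ‖φ.1 v‖ ≤ ‖v‖ := by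
  have := φ.1.le_opNorm v
  calc ‖φ.1 v‖ ≤ ‖φ.1‖ * ‖v‖ := this
    _ ≤ 1 * ‖v‖ := mul_le_mul_of_nonneg_right φ.2 (norm_nonneg v)
    _ = ‖v‖ := one_mul _

/-- evaluation embedding in `ℓ^∞` of the dual ball -/
theorem exists_eval (V : Type u) [NormedAddCommGroup V] [NormedSpace ℝ V] :
    ∃ T : V →ₗᵢ[ℝ] lp (fun _ : BallDual V => ℝ) ∞, ∀ (v : V) (φ : BallDual V),
      (T v : ∀ _ : BallDual V, ℝ) φ = φ.1 v := by
  have hmem : ∀ v : V, Memℓp (fun φ : BallDual V => φ.1 v) ∞ := by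
    intro v
    apply memℓp_infty
    refine ⟨‖v‖, ?_⟩
    rintro _ ⟨φ, rfl⟩
    exact ballDual_le φ v
  let L : V →ₗ[ℝ] lp (fun _ : BallDual V => ℝ) ∞ :=
    { toFun := fun v => ⟨fun φ => φ.1 v, hmem v⟩
      map_add' := by
        intro v w
        ext φ
        simp
      map_smul' := by
        intro c v
        ext φ
        simp }
  have hL : ∀ v (φ : BallDual V), (L v : ∀ _ : BallDual V, ℝ) φ = φ.1 v := fun v φ => rfl
  refine ⟨⟨L, ?_⟩, hL⟩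
  intro v
  apply le_antisymm
  · apply lp.norm_le_of_forall_le (norm_nonneg v)
    intro φ
    rw [hL]
    exact ballDual_le φ v
  · obtain ⟨g, hg1, hg2⟩ := exists_dual_vector'' ℝ v
    have h := lp.norm_apply_le_norm (ENNReal.top_ne_zero) (L v) ⟨g, hg1⟩
    rw [hL] at h
    simp only at h
    rw [hg2] at h
    simpa using h

/-- Ball intersection property: pairwise (metrically) intersecting balls with centres in a
finite-dimensional subspace of a strong Gurarii space have a common point. -/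
theorem ball_lemma (hV : IsStrongGurarii V) (G : Submodule ℝ V) [FiniteDimensional ℝ G]
    {ι : Type*} [Nonempty ι] (c : ι → V) (hc : ∀ i, c i ∈ G) (r : ι → ℝ)
    (h : ∀ i j, ‖c i - c j‖ ≤ r i + r j) : ∃ z : V, ∀ i, ‖c i - z‖ ≤ r i := by
  obtain ⟨T, hT⟩ := exists_eval V
  obtain ⟨i₀⟩ := (inferInstance : Nonempty ι)
  have hr : ∀ i, 0 ≤ r i := fun i => by
    have := h i i
    rw [sub_self, norm_zero] at this
    linarith
  have key : ∀ (φ : BallDual V) (i j : ι), φ.1 (c i) - r i ≤ φ.1 (c j) + r j := by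
    intro φ i j
    have h1 := ballDual_le φ (c i - c j)
    have h2 := h i j
    have h3 : φ.1 (c i - c j) ≤ ‖φ.1 (c i - c j)‖ := Real.le_norm_self _
    rw [map_sub] at h3 h1
    linarith
  have hbdd : ∀ φ : BallDual V, BddAbove (Set.range fun i => φ.1 (c i) - r i) := by
    intro φ
    refine ⟨φ.1 (c i₀) + r i₀, ?_⟩
    rintro _ ⟨i, rfl⟩
    exact key φ i i₀
  let t : BallDual V → ℝ := fun φ => ⨆ i, (φ.1 (c i) - r i)
  haveI : Nonempty ι := ⟨i₀⟩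
  have ht1 : ∀ φ i, φ.1 (c i) - r i ≤ t φ := fun φ i => le_ciSup (hbdd φ) i
  have ht2 : ∀ φ i, t φ ≤ φ.1 (c i) + r i := fun φ i => ciSup_le (fun j => key φ j i)
  have htabs : ∀ φ i, ‖φ.1 (c i) - t φ‖ ≤ r i := by
    intro φ i
    rw [Real.norm_eq_abs, abs_le]
    constructor
    · linarith [ht2 φ i]
    · linarith [ht1 φ i]
  have hmem : Memℓp t ∞ := by
    apply memℓp_infty
    refine ⟨‖c i₀‖ + r i₀, ?_⟩
    rintro _ ⟨φ, rfl⟩
    have h1 := htabs φ i₀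
    have h2 := ballDual_le φ (c i₀)
    calc ‖t φ‖ = ‖φ.1 (c i₀) - (φ.1 (c i₀) - t φ)‖ := by congr 1; ring
      _ ≤ ‖φ.1 (c i₀)‖ + ‖φ.1 (c i₀) - t φ‖ := norm_sub_le _ _
      _ ≤ ‖c i₀‖ + r i₀ := by linarith
  let τ : lp (fun _ : BallDual V => ℝ) ∞ := ⟨t, hmem⟩
  obtain ⟨j, hj⟩ := ext_lemma hV G (T.comp G.subtypeₗᵢ) (LinearMap.toSpanSingleton ℝ _ τ)
  refine ⟨j 1, fun i => ?_⟩
  have h1 := hj ⟨c i, hc i⟩ (-1)
  rw [map_neg, ← sub_eq_add_neg] at h1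
  simp only [LinearMap.map_neg] at h1
  have h2 : (LinearMap.toSpanSingleton ℝ (lp (fun _ : BallDual V => ℝ) ∞) τ) 1 = τ := by
    simp
  rw [h2] at h1
  rw [h1]
  apply lp.norm_le_of_forall_le (hr i)
  intro φ
  have : ((T.comp G.subtypeₗᵢ) ⟨c i, hc i⟩ + -τ : lp (fun _ : BallDual V => ℝ) ∞).1 φ
      = φ.1 (c i) - t φ := by
    show (T (c i) : ∀ _ : BallDual V, ℝ) φ + - (t φ) = _
    rw [hT]
    ring
  show ‖((T.comp G.subtypeₗᵢ) ⟨c i, hc i⟩ + -τ : lp (fun _ : BallDual V => ℝ) ∞).1 φ‖ ≤ r i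
  rw [this]
  exact htabs φ i

/-- First one-step extension: a new vector `a` over a finite-dimensional subspace `G`, determined
by a vector `v` and a functional `φ` in the dual ball. -/
theorem step_one (hV : IsStrongGurarii V) (G : Submodule ℝ V) [FiniteDimensional ℝ G]
    (v : V) (φ : V →L[ℝ] ℝ) (hφ : ‖φ‖ ≤ 1) :
    ∃ a : V, ∀ g ∈ G, ∀ t : ℝ, ‖g + t • a‖ = max ‖g + t • v‖ |φ g + t| := by
  let T : G →ₗᵢ[ℝ] V × ℝ :=
    { toLinearMap := (LinearMap.prod LinearMap.id φ.toLinearMap).comp G.subtype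
      norm_map' := by
        intro g
        show max ‖(g : V)‖ ‖φ g‖ = ‖(g : V)‖
        exact max_eq_left (ballDual_le ⟨φ, hφ⟩ g) }
  obtain ⟨j, hj⟩ := ext_lemma hV G T (LinearMap.toSpanSingleton ℝ (V × ℝ) (v, 1))
  refine ⟨j 1, fun g hg t => ?_⟩
  have h1 := hj ⟨g, hg⟩ t
  have h2 : j t = t • j 1 := by
    rw [← map_smul, smul_eq_mul, mul_one]
  rw [h2] at h1
  simp only at h1
  rw [h1]
  show ‖((g, φ g) : V × ℝ) + (LinearMap.toSpanSingleton ℝ (V × ℝ) (v, 1)) t‖ = _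
  rw [LinearMap.toSpanSingleton_apply]
  show max ‖g + t • v‖ ‖φ g + t • (1 : ℝ)‖ = _
  rw [smul_eq_mul, mul_one, Real.norm_eq_abs]

/-- Second one-step extension: a pair of new vectors. -/
theorem step_two (hV : IsStrongGurarii V) (G : Submodule ℝ V) [FiniteDimensional ℝ G]
    (x₀ y₀ : V) (ψ : V →L[ℝ] ℝ) (hψ : ‖ψ‖ ≤ 1) (p₁ p₂ : ℝ) :
    ∃ x y : V, ∀ g ∈ G, ∀ s t : ℝ,
      ‖g + (s • x + t • y)‖ = max ‖g + (s • x₀ + t • y₀)‖ |ψ g + (s * p₁ + t * p₂)| := by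
  let T : G →ₗᵢ[ℝ] V × ℝ :=
    { toLinearMap := (LinearMap.prod LinearMap.id ψ.toLinearMap).comp G.subtype
      norm_map' := by
        intro g
        show max ‖(g : V)‖ ‖ψ g‖ = ‖(g : V)‖
        exact max_eq_left (ballDual_le ⟨ψ, hψ⟩ g) }
  let S : ℝ × ℝ →ₗ[ℝ] V × ℝ :=
    (LinearMap.fst ℝ ℝ ℝ).smulRight (x₀, p₁) + (LinearMap.snd ℝ ℝ ℝ).smulRight (y₀, p₂)
  have hS : ∀ s t : ℝ, S (s, t) = (s • x₀ + t • y₀, s * p₁ + t * p₂) := by
    intro s t
    simp [S]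
  obtain ⟨j, hj⟩ := ext_lemma hV G T S
  refine ⟨j (1, 0), j (0, 1), fun g hg s t => ?_⟩
  have h1 := hj ⟨g, hg⟩ (s, t)
  have h2 : j (s, t) = s • j (1, 0) + t • j (0, 1) := by
    rw [← map_smul, ← map_smul, ← map_add]
    congr 1
    ext <;> simp
  rw [h2, hS] at h1
  simp only at h1
  rw [h1]
  show max ‖g + (s • x₀ + t • y₀)‖ ‖ψ g + (s * p₁ + t * p₂)‖ = _
  rw [Real.norm_eq_abs]

end Pool.Agent.Helper83.SG
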