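import Pool.Agent.Helper83.SG2

/-!
# The shift lemma and Riesz sequences of length beyond a given cardinal
-/

namespace Pool.Agent.Helper83.SG

open Cardinal Metric Set

universe u

/-- The shift lemma for triples: a colouring of the increasing triples of a linear order with more
than `2 ^ 2 ^ #K` elements by `K` gives two consecutive triples of the same colour. -/
theorem shift_lemma {Λ K : Type u} [LinearOrder Λ] (c : Λ → Λ → Λ → K)
    (h : (2 : Cardinal.{u}) ^ ((2 : Cardinal.{u}) ^ #K) < #Λ) :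
    ∃ α β γ δ : Λ, α < β ∧ β < γ ∧ γ < δ ∧ c α β γ = c β γ δ := by
  by_contra hcon
  push Not at hcon
  let A : Λ → Λ → Set K := fun β γ => {k | ∃ α, α < β ∧ c α β γ = k}
  let B : Λ → Set (Set K) := fun γ => {s | ∃ β, β < γ ∧ A β γ = s}
  have hlt : ∀ γ δ : Λ, γ < δ → B γ ≠ B δ := by
    intro γ δ hγδ heq
    have h1 : A γ δ ∈ B δ := ⟨γ, hγδ, rfl⟩
    rw [← heq] at h1
    obtain ⟨β, hβγ, hA⟩ := h1
    have h2 : c β γ δ ∈ A γ δ := ⟨β, hβγ, rfl⟩
    rw [← hA] at h2
    obtain ⟨α, hαβ, hc⟩ := h2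
    exact hcon α β γ δ hαβ hβγ hγδ hc
  have hinj : Function.Injective B := by
    intro γ δ hBd
    rcases lt_trichotomy γ δ with h' | h' | h'
    · exact absurd hBd (hlt γ δ h')
    · exact h'
    · exact absurd hBd.symm (hlt δ γ h')
  have hle : #Λ ≤ #(Set (Set K)) := mk_le_of_injective hinj
  rw [mk_set, mk_set] at hle
  exact absurd h (not_lt.mpr hle)

variable {V : Type u} [NormedAddCommGroup V] [NormedSpace ℝ V]

/-- a subset of size at most `κ` does not span a dense subspace when the density exceeds `κ` -/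
theorem span_closure_ne_top {κ : Cardinal.{u}} (hκ : ℵ₀ ≤ κ) (hd : κ < density V) (S : Set V)
    (hS : #S ≤ κ) : ∃ x : V, x ∉ (Submodule.span ℝ S).topologicalClosure := by
  classical
  by_contra hcon
  push Not at hcon
  let f : List (ℚ × S) → V := fun l => (l.map (fun p => (p.1 : ℝ) • (p.2 : V))).sum
  let Q : Set V := range f
  have hQcard : #Q ≤ κ := by
    calc #Q ≤ #(List (ℚ × S)) := mk_range_le
      _ ≤ max ℵ₀ #(ℚ × S) := mk_list_le_max _
      _ ≤ κ := by
          apply max_le hκ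
          rw [mk_prod]
          calc lift.{u} #ℚ * lift.{0} #S ≤ κ * κ := by
                apply mul_le_mul' _ _
                · rw [Cardinal.mkRat]
                  simpa using hκ
                · simpa using hS
            _ = κ := mul_eq_self hκ
  have hadd : ∀ x ∈ Q, ∀ y ∈ Q, x + y ∈ Q := by
    rintro _ ⟨l, rfl⟩ _ ⟨m, rfl⟩
    exact ⟨l ++ m, by simp [f]⟩
  have hsm : ∀ (q : ℚ), ∀ x ∈ Q, (q : ℝ) • x ∈ Q := by
    rintro q _ ⟨l, rfl⟩
    refine ⟨l.map (fun p => (q * p.1, p.2)), ?_⟩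
    simp only [f, List.map_map]
    induction l with
    | nil => simp
    | cons a t ih =>
      simp only [List.map_cons, List.sum_cons, smul_add, Function.comp_apply]
      rw [ih]
      congr 1
      push_cast
      rw [mul_smul]
  have hSQ : ∀ s ∈ S, s ∈ Q := fun s hs => ⟨[(1, ⟨s, hs⟩)], by simp [f]⟩
  have h0 : (0 : V) ∈ Q := ⟨[], by simp [f]⟩
  -- closure of `Q` is a real subspace
  have hcadd : ∀ x ∈ closure Q, ∀ y ∈ closure Q, x + y ∈ closure Q := by
    intro x hx y hy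
    exact map_mem_closure₂ continuous_add hx hy (fun a ha b hb => hadd a ha b hb)
  have hcsm : ∀ (r : ℝ), ∀ x ∈ closure Q, r • x ∈ closure Q := by
    intro r x hx
    have hq : r ∈ closure (range ((↑) : ℚ → ℝ)) := by
      have := Rat.denseRange_cast (𝕜 := ℝ)
      rw [this.closure_range]
      exact mem_univ _
    apply map_mem_closure₂ continuous_smul hq hx
    rintro _ ⟨q, rfl⟩ y hy
    exact hsm q y hy
  have hsub : (Submodule.span ℝ S : Set V) ⊆ closure Q := by
    intro x hx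
    induction hx using Submodule.span_induction with
    | mem x h => exact subset_closure (hSQ x h)
    | zero => exact subset_closure h0
    | add x y _ _ hx hy => exact hcadd x hx y hy
    | smul r x _ hx => exact hcsm r x hx
  have hdense : Dense Q := by
    intro x
    have h1 := hcon x
    have h2 : x ∈ closure (Submodule.span ℝ S : Set V) := h1
    have h3 : closure (Submodule.span ℝ S : Set V) ⊆ closure Q := by
      have := closure_mono hsub
      rwa [closure_closure] at this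
    exact h3 h2
  have h4 : density V ≤ #Q := csInf_le' ⟨Q, hdense, rfl⟩
  exact absurd (lt_of_lt_of_le hd (h4.trans hQcard)) (lt_irrefl _)

/-- Riesz step. -/
theorem riesz_step (F : Submodule ℝ V) (hF : IsClosed (F : Set V)) (hne : ∃ x : V, x ∉ F)
    (u : V) (hu : u ∈ F) (hu1 : ‖u‖ = 1) (H : V →L[ℝ] ℝ) (hH : ‖H‖ ≤ 1) (hHu : H u = 1) :
    ∃ (b : V) (G : V →L[ℝ] ℝ), ‖b‖ ≤ 2 ∧ H b = 0 ∧ ‖G‖ ≤ 1 ∧ (∀ y ∈ F, G y = 0) ∧ 1 / 2 ≤ G b := by
  obtain ⟨x₀, hx₀, hx₁⟩ := riesz_lemma hF hne (r := 1 / 2) (by norm_num)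
  have hx0 : x₀ ≠ 0 := fun h => hx₀ (h ▸ F.zero_mem)
  have hn : ‖x₀‖ ≠ 0 := norm_ne_zero_iff.mpr hx0
  have hnpos : 0 < ‖x₀‖ := norm_pos_iff.mpr hx0
  set x : V := ‖x₀‖⁻¹ • x₀ with hx
  have hxn : ‖x‖ = 1 := by
    rw [hx, norm_smul, norm_inv, norm_norm, inv_mul_cancel₀ hn]
  have hxd : ∀ y ∈ F, 1 / 2 ≤ ‖x - y‖ := by
    intro y hy
    have h1 := hx₁ (‖x₀‖ • y) (F.smul_mem _ hy)
    have h2 : x₀ - ‖x₀‖ • y = ‖x₀‖ • (x - y) := by
      rw [hx, smul_sub, smul_smul, mul_inv_cancel₀ hn, one_smul]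
    rw [h2, norm_smul, norm_norm, mul_comm] at h1
    exact le_of_mul_le_mul_left h1 hnpos
  set b : V := x - H x • u with hb
  have hbF : ∀ y ∈ F, 1 / 2 ≤ ‖b - y‖ := by
    intro y hy
    have h1 := hxd (H x • u + y) (F.add_mem (F.smul_mem _ hu) hy)
    rwa [← sub_sub] at h1
  haveI : IsClosed (F : Set V) := hF
  obtain ⟨g, hg1, hg2⟩ := exists_dual_vector'' ℝ (F.mkQ b)
  have hmk : ∀ v : V, ‖F.mkQ v‖ ≤ ‖v‖ := fun v => Submodule.Quotient.norm_mk_le F v
  let G : V →L[ℝ] ℝ := LinearMap.mkContinuous (g.toLinearMap.comp F.mkQ) 1 (by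
    intro v
    calc ‖g (F.mkQ v)‖ ≤ ‖g‖ * ‖F.mkQ v‖ := g.le_opNorm _
      _ ≤ 1 * ‖v‖ := mul_le_mul hg1 (hmk v) (norm_nonneg _) zero_le_one)
  have hG : ∀ v, G v = g (F.mkQ v) := fun v => rfl
  refine ⟨b, G, ?_, ?_, LinearMap.mkContinuous_norm_le _ zero_le_one _, ?_, ?_⟩
  · calc ‖b‖ ≤ ‖x‖ + ‖H x • u‖ := norm_sub_le _ _
      _ ≤ 1 + 1 := by
          rw [hxn, norm_smul, hu1, mul_one]
          have := ballDual_le ⟨H, hH⟩ x
          rw [hxn] at this
          simp only at this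
          linarith
      _ = 2 := by norm_num
  · have e1 : H b = H x - H (H x • u) := H.map_sub x (H x • u)
    have e2 : H (H x • u) = H x • H u := H.map_smul (H x) u
    rw [e1, e2, hHu, smul_eq_mul, mul_one, sub_self]
  · intro y hy
    rw [hG]
    have : F.mkQ y = 0 := by
      rw [Submodule.mkQ_apply, Submodule.Quotient.mk_eq_zero]
      exact hy
    rw [this, map_zero]
  · rw [hG, hg2]
    show 1 / 2 ≤ ‖F.mkQ b‖
    rw [Submodule.mkQ_apply]
    apply le_of_forall_pos_lt_add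
    intro ε hε
    obtain ⟨y, hy1, hy2⟩ := Submodule.Quotient.norm_mk_lt (S := F) (Submodule.Quotient.mk b) hε
    have hyb : b - y ∈ F := by
      rw [← Submodule.Quotient.eq]
      exact hy1.symm
    have := hbF (b - y) hyb
    rw [sub_sub_cancel] at this
    linarith

/-- Riesz sequence indexed by a well order all of whose initial segments have size at most `κ`,
when the density exceeds `κ`. -/
theorem riesz_family {κ : Cardinal.{u}} (hκ : ℵ₀ ≤ κ) (hd : κ < density V)
    {Λ : Type u} [LinearOrder Λ] [WellFoundedLT Λ] (hΛ : ∀ β : Λ, #(Iio β) ≤ κ)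
    (u : V) (hu1 : ‖u‖ = 1) (H : V →L[ℝ] ℝ) (hH : ‖H‖ ≤ 1) (hHu : H u = 1) :
    ∃ (b : Λ → V) (G : Λ → V →L[ℝ] ℝ), (∀ β, ‖b β‖ ≤ 2) ∧ (∀ β, H (b β) = 0) ∧
      (∀ β, ‖G β‖ ≤ 1) ∧ (∀ β, G β u = 0) ∧ (∀ α β, α < β → G β (b α) = 0) ∧
      (∀ β, 1 / 2 ≤ G β (b β)) := by
  classical
  have step : ∀ (β : Λ) (prev : Iio β → V), ∃ bG : V × (V →L[ℝ] ℝ), ‖bG.1‖ ≤ 2 ∧ H bG.1 = 0 ∧
      ‖bG.2‖ ≤ 1 ∧ bG.2 u = 0 ∧ (∀ α, bG.2 (prev α) = 0) ∧ 1 / 2 ≤ bG.2 bG.1 := by
    intro β prev
    let S : Set V := insert u (range prev)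
    have hS : #S ≤ κ := by
      calc #S ≤ #(range prev) + 1 := mk_insert_le
        _ ≤ κ + 1 := by
            gcongr
            exact mk_range_le.trans (hΛ β)
        _ = κ := add_one_of_aleph0_le hκ
    have hne := span_closure_ne_top hκ hd S hS
    have hcl : IsClosed ((Submodule.span ℝ S).topologicalClosure : Set V) :=
      Submodule.isClosed_topologicalClosure _
    have hle := Submodule.le_topologicalClosure (Submodule.span ℝ S)
    have hmem : ∀ s ∈ S, s ∈ (Submodule.span ℝ S).topologicalClosure :=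
      fun s hs => hle (Submodule.subset_span hs)
    obtain ⟨b, G, h1, h2, h3, h4, h5⟩ := riesz_step _ hcl hne u (hmem u (mem_insert _ _)) hu1 H hH hHu
    exact ⟨(b, G), h1, h2, h3, h4 u (hmem u (mem_insert _ _)),
      fun α => h4 _ (hmem _ (mem_insert_of_mem _ (mem_range_self α))), h5⟩
  choose! F hF using step
  let bb : Λ → V × (V →L[ℝ] ℝ) := WellFoundedLT.fix (fun β prev =>
    F β (fun α : Iio β => (prev α.1 α.2).1))
  have hbb : ∀ β, bb β = F β (fun α : Iio β => (bb α.1).1) := by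
    intro β
    exact WellFoundedLT.fix_eq _ β
  refine ⟨fun β => (bb β).1, fun β => (bb β).2, ?_, ?_, ?_, ?_, ?_, ?_⟩
  · intro β
    have := (hF β (fun α : Iio β => (bb α.1).1)).1
    rw [← hbb] at this
    exact this
  · intro β
    have := (hF β (fun α : Iio β => (bb α.1).1)).2.1
    rw [← hbb] at this
    exact this
  · intro β
    have := (hF β (fun α : Iio β => (bb α.1).1)).2.2.1
    rw [← hbb] at this
    exact this
  · intro β
    have := (hF β (fun α : Iio β => (bb α.1).1)).2.2.2.1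
    rw [← hbb] at this
    exact this
  · intro α β hαβ
    have := (hF β (fun α : Iio β => (bb α.1).1)).2.2.2.2.1 ⟨α, hαβ⟩
    rw [← hbb] at this
    exact this
  · intro β
    have := (hF β (fun α : Iio β => (bb α.1).1)).2.2.2.2.2
    rw [← hbb] at this
    exact this

end Pool.Agent.Helper83.SG
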