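import Pool.Agent.Helper83.SG3

/-!
# Planar estimates and the main contradiction
-/

namespace Pool.Agent.Helper83.SG

open Cardinal Metric Set

universe u

/-- the parameters `s n = 2 ^ (-n)` -/
noncomputable def sq (n : ℕ) : ℝ := (1 / 2) ^ n

/-- first coordinate of the unit vector `w n` -/
noncomputable def w1 (n : ℕ) : ℝ := (1 - sq n ^ 2) / (1 + sq n ^ 2)

/-- second coordinate of the unit vector `w n` -/
noncomputable def w2 (n : ℕ) : ℝ := (2 * sq n) / (1 + sq n ^ 2)

/-- the radii -/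
noncomputable def RR (n : ℕ) : ℝ := 32 / sq n ^ 2

theorem sq_pos (n : ℕ) : 0 < sq n := by unfold sq; positivity

theorem sq_le_one (n : ℕ) : sq n ≤ 1 := by
  unfold sq; exact pow_le_one₀ (by norm_num) (by norm_num)

theorem sq_half {n m : ℕ} (h : n < m) : sq m ≤ sq n / 2 := by
  have h1 : sq m ≤ sq (n + 1) := by
    unfold sq
    exact pow_le_pow_of_le_one (by norm_num) (by norm_num) h
  have h2 : sq (n + 1) = sq n / 2 := by
    unfold sq; rw [pow_succ]; ring
  linarith

theorem w_unit (n : ℕ) : w1 n ^ 2 + w2 n ^ 2 = 1 := by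
  unfold w1 w2
  have : (1 + sq n ^ 2) ≠ 0 := by positivity
  field_simp
  ring

theorem RR_ge (n : ℕ) : 32 ≤ RR n := by
  unfold RR
  rw [le_div_iff₀ (pow_pos (sq_pos n) 2)]
  nlinarith [sq_pos n, sq_le_one n]

/-- inner product of `w n` and `w m` -/
noncomputable def ip (n m : ℕ) : ℝ := w1 n * w1 m + w2 n * w2 m

theorem ip_eq (n m : ℕ) :
    1 - ip n m = 2 * (sq n - sq m) ^ 2 / ((1 + sq n ^ 2) * (1 + sq m ^ 2)) := by
  unfold ip w1 w2
  have h1 : (1 + sq n ^ 2) ≠ 0 := by positivity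
  have h2 : (1 + sq m ^ 2) ≠ 0 := by positivity
  field_simp
  ring

theorem ip_nonneg (n m : ℕ) : 0 ≤ ip n m := by
  unfold ip w1 w2
  have hn := sq_pos n
  have hm := sq_pos m
  have h1 : sq n ^ 2 ≤ 1 := pow_le_one₀ hn.le (sq_le_one n)
  have h2 : sq m ^ 2 ≤ 1 := pow_le_one₀ hm.le (sq_le_one m)
  have h3 : 0 ≤ (1 - sq n ^ 2) / (1 + sq n ^ 2) := div_nonneg (by linarith) (by positivity)
  have h4 : 0 ≤ (1 - sq m ^ 2) / (1 + sq m ^ 2) := div_nonneg (by linarith) (by positivity)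
  positivity

theorem ip_le_one (n m : ℕ) : ip n m ≤ 1 := by
  have h := ip_eq n m
  have : 0 ≤ 2 * (sq n - sq m) ^ 2 / ((1 + sq n ^ 2) * (1 + sq m ^ 2)) := by positivity
  linarith

theorem ip_gap {n m : ℕ} (h : n < m) : sq n ^ 2 / 5 ≤ 1 - ip n m := by
  rw [ip_eq]
  have hn := sq_pos n
  have hm := sq_pos m
  have h1 := sq_half h
  have h2 := sq_le_one n
  rw [div_le_div_iff₀ (by norm_num) (by positivity)]
  have h3 : sq n ^ 2 ≤ 1 := pow_le_one₀ hn.le h2
  have h4 : sq m ^ 2 ≤ 1 / 4 := by nlinarith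
  have h5 : (sq n / 2) ^ 2 ≤ (sq n - sq m) ^ 2 := by
    apply pow_le_pow_left₀ (by positivity)
    linarith
  have h6 : (1 + sq n ^ 2) * (1 + sq m ^ 2) ≤ 5 / 2 := by nlinarith
  nlinarith [pow_pos hn 2]

theorem ip_comm (n m : ℕ) : ip n m = ip m n := by unfold ip; ring

theorem planar_aux {n m : ℕ} (h : n < m) (σ : ℝ) (hσ : σ = 1 ∨ σ = -1) :
    RR n ^ 2 + RR m ^ 2 - 2 * σ * RR n * RR m * ip n m ≤ (RR n - 1 + (RR m - 1)) ^ 2 := by
  have hRn := RR_ge n
  have hRm := RR_ge m
  have h0 := ip_nonneg n m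
  rcases hσ with rfl | rfl
  · have h1 : 0 ≤ RR n * RR m * ip n m := by positivity
    nlinarith
  · have hgap := ip_gap h
    have hn := sq_pos n
    have hm := sq_pos m
    have h1 : RR n * sq n ^ 2 = 32 := by
      unfold RR; field_simp
    have h2 : RR m * sq m ^ 2 = 32 := by
      unfold RR; field_simp
    have h3 : 4 * RR n ≤ RR m := by
      unfold RR
      rw [show (4 : ℝ) * (32 / sq n ^ 2) = 32 / (sq n ^ 2 / 4) by field_simp]
      apply div_le_div_of_nonneg_left (by norm_num) (by positivity)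
      have := sq_half h
      nlinarith
    have h4 : RR n * RR m * (sq n ^ 2 / 5) ≤ RR n * RR m * (1 - ip n m) := by
      apply mul_le_mul_of_nonneg_left hgap
      positivity
    have h5 : RR n * RR m * (sq n ^ 2 / 5) = 32 / 5 * RR m := by
      calc RR n * RR m * (sq n ^ 2 / 5) = (RR n * sq n ^ 2) * RR m / 5 := by ring
        _ = 32 / 5 * RR m := by rw [h1]; ring
    nlinarith

/-- sign -/
noncomputable def ep (n : ℕ) : ℝ := (-1) ^ n

theorem ep_sq (n : ℕ) : ep n ^ 2 = 1 := by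
  unfold ep; rw [← pow_mul, mul_comm, pow_mul]; norm_num

theorem ep_cases (n : ℕ) : ep n = 1 ∨ ep n = -1 := by
  unfold ep
  rcases Nat.even_or_odd n with h | h
  · left; exact h.neg_one_pow
  · right; exact h.neg_one_pow

theorem planar_ineq (n m : ℕ) :
    (ep n * RR n * w1 n - ep m * RR m * w1 m) ^ 2 + (ep n * RR n * w2 n - ep m * RR m * w2 m) ^ 2
      ≤ (RR n - 1 + (RR m - 1)) ^ 2 := by
  have expand : (ep n * RR n * w1 n - ep m * RR m * w1 m) ^ 2
      + (ep n * RR n * w2 n - ep m * RR m * w2 m) ^ 2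
      = RR n ^ 2 + RR m ^ 2 - 2 * (ep n * ep m) * RR n * RR m * ip n m := by
    have e1 := w_unit n
    have e2 := w_unit m
    have e3 := ep_sq n
    have e4 := ep_sq m
    unfold ip
    calc _ = ep n ^ 2 * RR n ^ 2 * (w1 n ^ 2 + w2 n ^ 2) + ep m ^ 2 * RR m ^ 2 * (w1 m ^ 2 + w2 m ^ 2)
          - 2 * (ep n * ep m) * RR n * RR m * (w1 n * w1 m + w2 n * w2 m) := by ring
      _ = _ := by rw [e1, e2, e3, e4]; ring
  have hprod : ep n * ep m = 1 ∨ ep n * ep m = -1 := by
    rcases ep_cases n with h | h <;> rcases ep_cases m with h' | h' <;> rw [h, h'] <;> norm_num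
  rcases lt_trichotomy n m with h | h | h
  · rw [expand]
    exact planar_aux h _ hprod
  · subst h
    calc _ = (0 : ℝ) := by ring
      _ ≤ _ := sq_nonneg _
  · rw [expand]
    have := planar_aux h _ (by rwa [mul_comm] : ep m * ep n = 1 ∨ ep m * ep n = -1)
    rw [ip_comm n m]
    nlinarith

variable {V : Type u} [NormedAddCommGroup V] [NormedSpace ℝ V]

/-- `x, y` span isometrically a Euclidean plane -/
def Eu (x y : V) : Prop := ∀ a b : ℝ, ‖a • x + b • y‖ ^ 2 = a ^ 2 + b ^ 2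

/-- the centres -/
noncomputable def cen (x y : V) (n : ℕ) : V := (ep n * RR n * w1 n) • x + (ep n * RR n * w2 n) • y

theorem served (hV : IsStrongGurarii V) {x y : V} (h : Eu x y) :
    ∃ z : V, ∀ n, ‖cen x y n - z‖ ≤ RR n - 1 := by
  have hx : x ∈ Submodule.span ℝ ({x, y} : Set V) := Submodule.subset_span (by simp)
  have hy : y ∈ Submodule.span ℝ ({x, y} : Set V) := Submodule.subset_span (by simp)
  haveI : FiniteDimensional ℝ (Submodule.span ℝ ({x, y} : Set V)) :=
    FiniteDimensional.span_of_finite ℝ (by simp)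
  apply ball_lemma hV (Submodule.span ℝ ({x, y} : Set V)) (cen x y) _ (fun n => RR n - 1)
  · intro n m
    have h1 : cen x y n - cen x y m = (ep n * RR n * w1 n - ep m * RR m * w1 m) • x
        + (ep n * RR n * w2 n - ep m * RR m * w2 m) • y := by
      unfold cen; rw [sub_smul, sub_smul]; abel
    have h2 : ‖cen x y n - cen x y m‖ ^ 2 ≤ (RR n - 1 + (RR m - 1)) ^ 2 := by
      rw [h1, h]
      exact planar_ineq n m
    have h3 := RR_ge n
    have h4 := RR_ge m
    exact (pow_le_pow_iff_left₀ (norm_nonneg _) (by linarith) two_ne_zero).mp h2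
  · intro n
    exact Submodule.add_mem _ (Submodule.smul_mem _ _ hx) (Submodule.smul_mem _ _ hy)

end Pool.Agent.Helper83.SG
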