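import Pool.Agent.Helper83.SG4

/-!
# The main contradiction
-/

namespace Pool.Agent.Helper83.SG

open Cardinal Metric Set

universe u

variable {V : Type u} [NormedAddCommGroup V] [NormedSpace ℝ V]

/-- Step A: the vectors `a`. -/
theorem step_a (hV : IsStrongGurarii V) (u b b' : V) (hu : ‖u‖ = 1) (hb : ‖b‖ ≤ 2)
    (hb' : ‖b'‖ ≤ 2) (δ : ℝ) (hδ : 0 < δ) (hδ1 : δ ≤ 1 / 2) (φ : V →L[ℝ] ℝ) (hφ : ‖φ‖ ≤ 1)
    (hφu : φ u = 1 - δ) (hφb : φ b = 0) (hφb' : δ / 2 ≤ φ b') :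
    ∃ a : V, ‖a‖ = 1 ∧ ‖a - u‖ ≤ δ ∧ ‖a + (δ / 4) • b‖ ≤ 1 ∧
      ‖a - (δ / 4) • b'‖ ≤ 1 - δ ^ 2 / 8 := by
  have hfin : ({u, b, b'} : Set V).Finite := by simp
  haveI : FiniteDimensional ℝ (Submodule.span ℝ ({u, b, b'} : Set V)) :=
    FiniteDimensional.span_of_finite ℝ hfin
  obtain ⟨a, ha⟩ := step_one hV (Submodule.span ℝ ({u, b, b'} : Set V)) ((1 - δ) • u) φ hφ
  have mu : u ∈ Submodule.span ℝ ({u, b, b'} : Set V) := Submodule.subset_span (by simp)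
  have mb : b ∈ Submodule.span ℝ ({u, b, b'} : Set V) := Submodule.subset_span (by simp)
  have mb' : b' ∈ Submodule.span ℝ ({u, b, b'} : Set V) := Submodule.subset_span (by simp)
  have hnu : ‖(1 - δ) • u‖ = 1 - δ := by
    rw [norm_smul, hu, mul_one, Real.norm_eq_abs, abs_of_nonneg (by linarith)]
  refine ⟨a, ?_, ?_, ?_, ?_⟩
  · have h := ha 0 (Submodule.zero_mem _) 1
    rw [zero_add, one_smul, one_smul, zero_add, map_zero, zero_add, hnu, abs_one] at h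
    rw [h, max_eq_right (by linarith)]
  · have h := ha (-u) (Submodule.neg_mem _ mu) 1
    have e1 : -u + (1 : ℝ) • a = a - u := by rw [one_smul]; abel
    have e2 : -u + (1 : ℝ) • (1 - δ) • u = (-δ) • u := by
      rw [one_smul, sub_smul, one_smul, neg_smul]; abel
    rw [e1, e2, map_neg, hφu, norm_smul, hu, mul_one, Real.norm_eq_abs, abs_neg,
      abs_of_pos hδ] at h
    rw [h]
    apply max_le le_rfl
    rw [abs_of_nonneg (by linarith)]
    linarith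
  · have h := ha ((δ / 4) • b) (Submodule.smul_mem _ _ mb) 1
    have e1 : (δ / 4) • b + (1 : ℝ) • a = a + (δ / 4) • b := by rw [one_smul]; abel
    rw [e1, map_smul, hφb, smul_zero, zero_add, abs_one] at h
    rw [h]
    apply max_le _ le_rfl
    calc ‖(δ / 4) • b + (1 : ℝ) • (1 - δ) • u‖ ≤ ‖(δ / 4) • b‖ + ‖(1 : ℝ) • (1 - δ) • u‖ :=
          norm_add_le _ _
      _ ≤ δ / 4 * 2 + (1 - δ) := by
          rw [one_smul, hnu, norm_smul, Real.norm_eq_abs, abs_of_pos (by positivity)]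
          have : δ / 4 * ‖b‖ ≤ δ / 4 * 2 := mul_le_mul_of_nonneg_left hb (by positivity)
          linarith
      _ ≤ 1 := by linarith
  · have h := ha (-((δ / 4) • b')) (Submodule.neg_mem _ (Submodule.smul_mem _ _ mb')) 1
    have e1 : -((δ / 4) • b') + (1 : ℝ) • a = a - (δ / 4) • b' := by rw [one_smul]; abel
    rw [e1, map_neg, map_smul, smul_eq_mul] at h
    rw [h]
    have hb'2 : φ b' ≤ 2 := by
      have h1 := ballDual_le ⟨φ, hφ⟩ b'
      simp only at h1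
      have h2 := Real.le_norm_self (φ b')
      linarith
    apply max_le
    · calc ‖-((δ / 4) • b') + (1 : ℝ) • (1 - δ) • u‖
            ≤ ‖-((δ / 4) • b')‖ + ‖(1 : ℝ) • (1 - δ) • u‖ := norm_add_le _ _
        _ ≤ δ / 4 * 2 + (1 - δ) := by
            rw [one_smul, hnu, norm_neg, norm_smul, Real.norm_eq_abs, abs_of_pos (by positivity)]
            have : δ / 4 * ‖b'‖ ≤ δ / 4 * 2 := mul_le_mul_of_nonneg_left hb' (by positivity)
            linarith
        _ ≤ 1 - δ ^ 2 / 8 := by nlinarith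
    · rw [abs_le]
      constructor
      · nlinarith
      · nlinarith

/-- Step J: the perturbed embeddings. -/
theorem step_j (hV : IsStrongGurarii V) {x₀ y₀ : V} (h0 : Eu x₀ y₀) (a a' : V) (ψ : V →L[ℝ] ℝ)
    (hψ : ‖ψ‖ ≤ 1) (hψa' : ψ a' = 1) (p₁ p₂ q₁ q₂ : ℝ) (hp : p₁ ^ 2 + p₂ ^ 2 = 1)
    (δ : ℝ) (hδ : 0 < δ) (hδ1 : δ ≤ 1 / 2)
    (hip0 : 0 ≤ p₁ * q₁ + p₂ * q₂) (hip1 : p₁ * q₁ + p₂ * q₂ ≤ 1)
    (ha1 : ‖a‖ = 1) (hau : ‖a - (q₁ • x₀ + q₂ • y₀)‖ ≤ δ)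
    (hψa : ψ a ≤ 1 - δ ^ 2 / 8) (hψa0 : 0 ≤ ψ a) :
    ∃ x y : V, Eu x y ∧ ‖x - x₀‖ ≤ |p₁ - ψ x₀| ∧ ‖y - y₀‖ ≤ |p₂ - ψ y₀| ∧
      ‖(16 / δ ^ 2) • a - (q₁ • x + q₂ • y)‖ ≤ 16 / δ ^ 2 - 1 + δ ∧
      ∀ L R : ℝ, L + R ≤ ‖L • a' + R • (p₁ • x + p₂ • y)‖ := by
  have hfin : ({x₀, y₀, a, a'} : Set V).Finite := by simp
  haveI : FiniteDimensional ℝ (Submodule.span ℝ ({x₀, y₀, a, a'} : Set V)) :=
    FiniteDimensional.span_of_finite ℝ hfin
  obtain ⟨x, y, hxy⟩ := step_two hV (Submodule.span ℝ ({x₀, y₀, a, a'} : Set V)) x₀ y₀ ψ hψ p₁ p₂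
  have mx : x₀ ∈ Submodule.span ℝ ({x₀, y₀, a, a'} : Set V) := Submodule.subset_span (by simp)
  have my : y₀ ∈ Submodule.span ℝ ({x₀, y₀, a, a'} : Set V) := Submodule.subset_span (by simp)
  have ma : a ∈ Submodule.span ℝ ({x₀, y₀, a, a'} : Set V) := Submodule.subset_span (by simp)
  have ma' : a' ∈ Submodule.span ℝ ({x₀, y₀, a, a'} : Set V) := Submodule.subset_span (by simp)
  refine ⟨x, y, ?_, ?_, ?_, ?_, ?_⟩
  · intro s t
    have h := hxy 0 (Submodule.zero_mem _) s t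
    rw [zero_add, zero_add, map_zero, zero_add] at h
    have h1 : |s * p₁ + t * p₂| ≤ ‖s • x₀ + t • y₀‖ := by
      apply abs_le_of_sq_le_sq _ (norm_nonneg _)
      rw [h0]
      nlinarith [sq_nonneg (s * p₂ - t * p₁)]
    rw [h, max_eq_left h1, h0]
  · have h := hxy (-x₀) (Submodule.neg_mem _ mx) 1 0
    have e1 : -x₀ + ((1 : ℝ) • x + (0 : ℝ) • y) = x - x₀ := by
      rw [one_smul, zero_smul, add_zero]; abel
    have e2 : -x₀ + ((1 : ℝ) • x₀ + (0 : ℝ) • y₀) = 0 := by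
      rw [one_smul, zero_smul, add_zero]; abel
    rw [e1, e2, norm_zero, map_neg] at h
    rw [h]
    apply max_le (abs_nonneg _)
    apply le_of_eq
    congr 1
    ring
  · have h := hxy (-y₀) (Submodule.neg_mem _ my) 0 1
    have e1 : -y₀ + ((0 : ℝ) • x + (1 : ℝ) • y) = y - y₀ := by
      rw [one_smul, zero_smul, zero_add]; abel
    have e2 : -y₀ + ((0 : ℝ) • x₀ + (1 : ℝ) • y₀) = 0 := by
      rw [one_smul, zero_smul, zero_add]; abel
    rw [e1, e2, norm_zero, map_neg] at h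
    rw [h]
    apply max_le (abs_nonneg _)
    apply le_of_eq
    congr 1
    ring
  · set L : ℝ := 16 / δ ^ 2 with hL
    have hL1 : 2 ≤ L := by
      rw [hL, le_div_iff₀ (by positivity)]
      nlinarith
    have hLδ : L * (δ ^ 2 / 8) = 2 := by
      rw [hL]; field_simp; norm_num
    have h := hxy (L • a) (Submodule.smul_mem _ _ ma) (-q₁) (-q₂)
    have e1 : L • a + (-q₁ • x + -q₂ • y) = L • a - (q₁ • x + q₂ • y) := by
      rw [neg_smul, neg_smul]; abel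
    rw [e1] at h
    rw [h]
    apply max_le
    · have e2 : L • a + (-q₁ • x₀ + -q₂ • y₀) = (L - 1) • a + (a - (q₁ • x₀ + q₂ • y₀)) := by
        rw [neg_smul, neg_smul, sub_smul, one_smul]; abel
      rw [e2]
      calc _ ≤ ‖(L - 1) • a‖ + ‖a - (q₁ • x₀ + q₂ • y₀)‖ := norm_add_le _ _
        _ ≤ (L - 1) + δ := by
            rw [norm_smul, ha1, mul_one, Real.norm_eq_abs, abs_of_nonneg (by linarith)]
            linarith
    · rw [map_smul, smul_eq_mul]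
      have h1 : L * ψ a ≤ L * (1 - δ ^ 2 / 8) := mul_le_mul_of_nonneg_left hψa (by linarith)
      have h2 : 0 ≤ L * ψ a := mul_nonneg (by linarith) hψa0
      rw [abs_le]
      constructor
      · nlinarith
      · nlinarith
  · intro L R
    have h := hxy (L • a') (Submodule.smul_mem _ _ ma') (R * p₁) (R * p₂)
    have e1 : (R * p₁) • x + (R * p₂) • y = R • (p₁ • x + p₂ • y) := by
      rw [smul_add, smul_smul, smul_smul]
    rw [e1, map_smul, hψa', smul_eq_mul, mul_one] at h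
    rw [h]
    refine le_trans ?_ (le_max_right _ _)
    have e2 : L + (R * p₁ * p₁ + R * p₂ * p₂) = L + R := by
      have : R * p₁ * p₁ + R * p₂ * p₂ = R * (p₁ ^ 2 + p₂ ^ 2) := by ring
      rw [this, hp, mul_one]
    rw [e2]
    exact le_abs_self _

end Pool.Agent.Helper83.SG
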