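import Pool.Agent.Helper83.SG5

/-!
# The main contradiction: a small set cannot serve a whole ball of embeddings
-/

namespace Pool.Agent.Helper83.SG

open Cardinal Metric Set

universe u

variable {V : Type u} [NormedAddCommGroup V] [NormedSpace ℝ V]

theorem w_close (n : ℕ) : (w1 n - w1 (n + 1)) ^ 2 + (w2 n - w2 (n + 1)) ^ 2 ≤ (2 * sq n) ^ 2 := by
  have e : (w1 n - w1 (n + 1)) ^ 2 + (w2 n - w2 (n + 1)) ^ 2
      = 2 * (1 - ip n (n + 1)) := by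
    have e1 := w_unit n
    have e2 := w_unit (n + 1)
    unfold ip
    nlinarith
  rw [e, ip_eq]
  have hn := sq_pos n
  have hm := sq_pos (n + 1)
  have h1 := sq_half (Nat.lt_succ_self n)
  have h2 : 2 * (sq n - sq (n + 1)) ^ 2 / ((1 + sq n ^ 2) * (1 + sq (n + 1) ^ 2))
      ≤ 2 * (sq n - sq (n + 1)) ^ 2 := by
    apply div_le_self (by positivity)
    nlinarith [pow_pos hn 2, pow_pos hm 2]
  have h3 : (sq n - sq (n + 1)) ^ 2 ≤ sq n ^ 2 := by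
    apply pow_le_pow_left₀ (by linarith)
    linarith
  nlinarith

theorem main_contra (hV : IsStrongGurarii V) (D : Set V) {κ : Cardinal.{u}} (hκ : ℵ₀ ≤ κ)
    (hD : #D ≤ κ) (hd : (2 : Cardinal.{u}) ^ ((2 : Cardinal.{u}) ^ κ) < density V)
    {x₀ y₀ : V} (h0 : Eu x₀ y₀) (r₀ : ℝ) (hr₀ : 0 < r₀)
    (hs : ∀ x y : V, Eu x y → ‖x - x₀‖ < r₀ → ‖y - y₀‖ < r₀ → ∀ n m : ℕ,
      ∃ z ∈ D, ‖cen x y n - z‖ ≤ RR n - 1 / 2 ∧ ‖cen x y m - z‖ ≤ RR m - 1 / 2) : False := by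
  classical
  -- choice of the indices
  obtain ⟨N, hN⟩ : ∃ N : ℕ, sq (2 * N) < r₀ / 8 := by
    obtain ⟨N, hN⟩ := exists_pow_lt_of_lt_one (show (0 : ℝ) < r₀ / 8 by positivity)
      (show (1 / 2 : ℝ) < 1 by norm_num)
    refine ⟨N, lt_of_le_of_lt ?_ hN⟩
    unfold sq
    exact pow_le_pow_of_le_one (by norm_num) (by norm_num) (by omega)
  set n : ℕ := 2 * N with hn
  set m : ℕ := n + 1 with hm
  have hepn : ep n = 1 := by
    unfold ep; rw [hn, pow_mul]; norm_num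
  have hepm : ep m = -1 := by
    unfold ep; rw [hm, hn, pow_succ, pow_mul]; norm_num
  have hRm := RR_ge m
  have hRn := RR_ge n
  set p₁ := w1 n with hp₁
  set p₂ := w2 n with hp₂
  set q₁ := w1 m with hq₁
  set q₂ := w2 m with hq₂
  have hp : p₁ ^ 2 + p₂ ^ 2 = 1 := w_unit n
  have hq : q₁ ^ 2 + q₂ ^ 2 = 1 := w_unit m
  have hpq : (p₁ - q₁) ^ 2 + (p₂ - q₂) ^ 2 ≤ (r₀ / 4) ^ 2 := by
    have h1 := w_close n
    have h2 : (2 * sq n) ^ 2 ≤ (r₀ / 4) ^ 2 := by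
      apply pow_le_pow_left₀ (by have := sq_pos n; positivity)
      linarith
    exact h1.trans h2
  have hip0 : 0 ≤ p₁ * q₁ + p₂ * q₂ := ip_nonneg n m
  have hip1 : p₁ * q₁ + p₂ * q₂ ≤ 1 := ip_le_one n m
  -- choice of δ
  set δ : ℝ := min (1 / 2) (min (r₀ ^ 2 / 32) (1 / (2 * RR m))) with hδdef
  have hδ : 0 < δ := by
    rw [hδdef]
    apply lt_min (by norm_num)
    apply lt_min (by positivity)
    have : 0 < RR m := by linarith
    positivity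
  have hδ1 : δ ≤ 1 / 2 := min_le_left _ _
  have hδ2 : 2 * δ ≤ (r₀ / 4) ^ 2 := by
    have : δ ≤ r₀ ^ 2 / 32 := (min_le_right _ _).trans (min_le_left _ _)
    nlinarith
  have hδ3 : RR m * δ ≤ 1 / 2 := by
    have h1 : δ ≤ 1 / (2 * RR m) := (min_le_right _ _).trans (min_le_right _ _)
    have h2 : 0 < RR m := by linarith
    calc RR m * δ ≤ RR m * (1 / (2 * RR m)) := mul_le_mul_of_nonneg_left h1 h2.le
      _ = 1 / 2 := by field_simp
  -- the vector u and its norming functional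
  set u : V := q₁ • x₀ + q₂ • y₀ with hu
  have hu1 : ‖u‖ = 1 := by
    have h1 : ‖u‖ ^ 2 = 1 := by rw [hu, h0, hq]
    exact (pow_eq_one_iff_of_nonneg (norm_nonneg u) two_ne_zero).mp h1
  obtain ⟨H, hH, hHu⟩ := exists_dual_vector'' ℝ u
  rw [hu1] at hHu
  have hHu' : H u = 1 := by simpa using hHu
  -- the index set
  set κ' : Cardinal.{u} := (2 : Cardinal.{u}) ^ ((2 : Cardinal.{u}) ^ κ) with hκ'
  have hκκ' : κ ≤ κ' := (cantor κ).le.trans (cantor _).le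
  have hκ'0 : ℵ₀ ≤ κ' := hκ.trans hκκ'
  let Λ : Type u := (Order.succ κ').ord.ToType
  have hΛcard : #Λ = Order.succ κ' := mk_ord_toType _
  have hΛI : ∀ β : Λ, #(Iio β) ≤ κ' := fun β => Order.lt_succ_iff.mp (mk_Iio_toType_ord_lt β)
  obtain ⟨b, G, hb, hHb, hG, hGu, hGb0, hGb⟩ := riesz_family hκ'0 hd hΛI u hu1 H hH hHu'
  -- the functionals φ
  let φ : Λ → V →L[ℝ] ℝ := fun β => (1 - δ) • H + δ • G β
  have hφn : ∀ β, ‖φ β‖ ≤ 1 := by
    intro β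
    calc ‖φ β‖ ≤ ‖(1 - δ) • H‖ + ‖δ • G β‖ := norm_add_le _ _
      _ = (1 - δ) * ‖H‖ + δ * ‖G β‖ := by
          rw [norm_smul, norm_smul, Real.norm_eq_abs, Real.norm_eq_abs,
            abs_of_nonneg (by linarith), abs_of_pos hδ]
      _ ≤ (1 - δ) * 1 + δ * 1 := by
          have h1 : (1 - δ) * ‖H‖ ≤ (1 - δ) * 1 := mul_le_mul_of_nonneg_left hH (by linarith)
          have h2 : δ * ‖G β‖ ≤ δ * 1 := mul_le_mul_of_nonneg_left (hG β) hδ.le
          linarith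
      _ = 1 := by ring
  have hφapp : ∀ β v, φ β v = (1 - δ) * H v + δ * G β v := fun β v => rfl
  have hA : ∀ α β : Λ, α < β → ∃ a : V, ‖a‖ = 1 ∧ ‖a - u‖ ≤ δ ∧ ‖a + (δ / 4) • b α‖ ≤ 1 ∧
      ‖a - (δ / 4) • b β‖ ≤ 1 - δ ^ 2 / 8 := by
    intro α β hαβ
    apply step_a hV u (b α) (b β) hu1 (hb α) (hb β) δ hδ hδ1 (φ β) (hφn β)
    · rw [hφapp, hHu', hGu]; ring
    · rw [hφapp, hHb, hGb0 α β hαβ]; ring
    · rw [hφapp, hHb]
      have := mul_le_mul_of_nonneg_left (hGb β) hδ.le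
      linarith
  choose! a ha1 hau haα haβ using hA
  have hψex : ∀ β γ : Λ, ∃ ψ : V →L[ℝ] ℝ, ‖ψ‖ ≤ 1 ∧ ψ (a β γ) = ‖a β γ‖ := by
    intro β γ
    obtain ⟨ψ, h1, h2⟩ := exists_dual_vector'' ℝ (a β γ)
    exact ⟨ψ, h1, by simpa using h2⟩
  choose ψ hψn hψa using hψex
  have hψle : ∀ β γ v, ψ β γ v ≤ ‖v‖ := fun β γ v =>
    (Real.le_norm_self _).trans (ballDual_le ⟨ψ β γ, hψn β γ⟩ v)
  have hψ1 : ∀ β γ, β < γ → ψ β γ (a β γ) = 1 := fun β γ h => by rw [hψa, ha1 β γ h]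
  have hψb : ∀ β γ, β < γ → ψ β γ (b β) ≤ 0 := by
    intro β γ h
    have h1 := (hψle β γ (a β γ + (δ / 4) • b β)).trans (haα β γ h)
    rw [map_add, map_smul, smul_eq_mul, hψ1 β γ h] at h1
    have h2 : δ / 4 * ψ β γ (b β) ≤ 0 := by linarith
    by_contra hcon
    push Not at hcon
    have : 0 < δ / 4 * ψ β γ (b β) := by positivity
    linarith
  have hψa2 : ∀ α β γ, α < β → β < γ → ψ β γ (a α β) ≤ 1 - δ ^ 2 / 8 := by
    intro α β γ h h'
    have h1 := (hψle β γ (a α β - (δ / 4) • b β)).trans (haβ α β h)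
    rw [map_sub, map_smul, smul_eq_mul] at h1
    have h2 := hψb β γ h'
    have h3 : δ / 4 * ψ β γ (b β) ≤ 0 := mul_nonpos_of_nonneg_of_nonpos (by positivity) h2
    linarith
  have hψa3 : ∀ α β γ, α < β → β < γ → 0 ≤ ψ β γ (a α β) := by
    intro α β γ h h'
    have h1 := hψle β γ (a β γ - a α β)
    rw [map_sub, hψ1 β γ h'] at h1
    have h2 : ‖a β γ - a α β‖ ≤ δ + δ := by
      have e : a β γ - a α β = (a β γ - u) - (a α β - u) := by abel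
      rw [e]
      calc _ ≤ ‖a β γ - u‖ + ‖a α β - u‖ := norm_sub_le _ _
        _ ≤ δ + δ := add_le_add (hau β γ h') (hau α β h)
    linarith
  have hψu : ∀ β γ, β < γ → 1 - δ ≤ ψ β γ u := by
    intro β γ h
    have h1 := hψle β γ (a β γ - u)
    rw [map_sub, hψ1 β γ h] at h1
    have h2 := hau β γ h
    linarith
  -- the functional ψ restricted to the plane is close to q
  have hclose : ∀ β γ, β < γ → |p₁ - ψ β γ x₀| < r₀ ∧ |p₂ - ψ β γ y₀| < r₀ := by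
    intro β γ h
    set f₁ := ψ β γ x₀ with hf₁
    set f₂ := ψ β γ y₀ with hf₂
    have hf : f₁ ^ 2 + f₂ ^ 2 ≤ 1 := by
      have h1 := hψle β γ (f₁ • x₀ + f₂ • y₀)
      rw [map_add, map_smul, map_smul, smul_eq_mul, smul_eq_mul, ← hf₁, ← hf₂] at h1
      have h2 := h0 f₁ f₂
      have h3 : 0 ≤ ‖f₁ • x₀ + f₂ • y₀‖ := norm_nonneg _
      by_contra hcon
      push Not at hcon
      nlinarith
    have hfu : 1 - δ ≤ q₁ * f₁ + q₂ * f₂ := by
      have h1 := hψu β γ h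
      rw [hu, map_add, map_smul, map_smul, smul_eq_mul, smul_eq_mul] at h1
      exact h1
    have hfq : (f₁ - q₁) ^ 2 + (f₂ - q₂) ^ 2 ≤ (r₀ / 4) ^ 2 := by nlinarith
    have g1 : |f₁ - q₁| ≤ r₀ / 4 := abs_le_of_sq_le_sq (by nlinarith) (by positivity)
    have g2 : |f₂ - q₂| ≤ r₀ / 4 := abs_le_of_sq_le_sq (by nlinarith) (by positivity)
    have g3 : |p₁ - q₁| ≤ r₀ / 4 := abs_le_of_sq_le_sq (by nlinarith) (by positivity)
    have g4 : |p₂ - q₂| ≤ r₀ / 4 := abs_le_of_sq_le_sq (by nlinarith) (by positivity)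
    rw [abs_le] at g1 g2 g3 g4
    constructor
    · rw [abs_lt]; constructor <;> linarith [g1.1, g1.2, g3.1, g3.2]
    · rw [abs_lt]; constructor <;> linarith [g2.1, g2.2, g4.1, g4.2]
  have hJ : ∀ α β γ : Λ, α < β → β < γ → ∃ x y : V, Eu x y ∧ ‖x - x₀‖ < r₀ ∧ ‖y - y₀‖ < r₀ ∧
      ‖(16 / δ ^ 2) • a α β - (q₁ • x + q₂ • y)‖ ≤ 16 / δ ^ 2 - 1 + δ ∧
      ∀ L R : ℝ, L + R ≤ ‖L • a β γ + R • (p₁ • x + p₂ • y)‖ := by
    intro α β γ h h'
    obtain ⟨x, y, h1, h2, h3, h4, h5⟩ := step_j hV h0 (a α β) (a β γ) (ψ β γ) (hψn β γ)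
      (hψ1 β γ h') p₁ p₂ q₁ q₂ hp δ hδ hδ1 hip0 hip1 (ha1 α β h) (hau α β h)
      (hψa2 α β γ h h') (hψa3 α β γ h h')
    exact ⟨x, y, h1, lt_of_le_of_lt h2 (hclose β γ h').1, lt_of_le_of_lt h3 (hclose β γ h').2,
      h4, h5⟩
  choose! X Y hE hX hY hup hlow using hJ
  -- the colouring
  obtain ⟨z₀, hz₀, -, -⟩ := hs x₀ y₀ h0 (by simpa using hr₀) (by simpa using hr₀) 0 0
  have hcol : ∀ α β γ : Λ, ∃ z : D, α < β → β < γ →
      ‖cen (X α β γ) (Y α β γ) n - z‖ ≤ RR n - 1 / 2 ∧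
      ‖cen (X α β γ) (Y α β γ) m - z‖ ≤ RR m - 1 / 2 := by
    intro α β γ
    by_cases h : α < β ∧ β < γ
    · obtain ⟨z, hz, h1, h2⟩ := hs _ _ (hE α β γ h.1 h.2) (hX α β γ h.1 h.2) (hY α β γ h.1 h.2) n m
      exact ⟨⟨z, hz⟩, fun _ _ => ⟨h1, h2⟩⟩
    · exact ⟨⟨z₀, hz₀⟩, fun h1 h2 => absurd ⟨h1, h2⟩ h⟩
  choose c hc using hcol
  have hbig : (2 : Cardinal.{u}) ^ ((2 : Cardinal.{u}) ^ #D) < #Λ := by
    rw [hΛcard]
    apply Order.lt_succ_of_le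
    rw [hκ']
    exact power_le_power_left two_ne_zero (power_le_power_left two_ne_zero hD)
  obtain ⟨α, β, γ, ε, h1, h2, h3, h4⟩ := shift_lemma c hbig
  have k1 := (hc α β γ h1 h2).1
  have k2 := (hc β γ ε h2 h3).2
  rw [← h4] at k2
  set z : V := (c α β γ : V) with hz
  set v : V := p₁ • X α β γ + p₂ • Y α β γ with hv
  set v' : V := q₁ • X β γ ε + q₂ • Y β γ ε with hv'
  have e1 : cen (X α β γ) (Y α β γ) n = RR n • v := by
    unfold cen
    rw [hepn, one_mul, hv, smul_add, smul_smul, smul_smul]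
  have e2 : cen (X β γ ε) (Y β γ ε) m = -(RR m • v') := by
    unfold cen
    rw [hepm, hv', smul_add, smul_smul, smul_smul, neg_add, ← neg_smul, ← neg_smul]
    congr 2 <;> ring
  rw [e1] at k1
  rw [e2] at k2
  have k3 : ‖RR n • v + RR m • v'‖ ≤ RR n + RR m - 1 := by
    have e3 : RR n • v + RR m • v' = (RR n • v - z) - (-(RR m • v') - z) := by abel
    rw [e3]
    calc _ ≤ ‖RR n • v - z‖ + ‖-(RR m • v') - z‖ := norm_sub_le _ _
      _ ≤ _ := by linarith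
  have k4 := hlow α β γ h1 h2 (RR m * (16 / δ ^ 2)) (RR n)
  have k5 := hup β γ ε h2 h3
  rw [← hv] at k4
  rw [← hv'] at k5
  have k6 : ‖(RR m * (16 / δ ^ 2)) • a β γ + RR n • v‖ ≤
      ‖RR n • v + RR m • v'‖ + RR m * (16 / δ ^ 2 - 1 + δ) := by
    have e4 : (RR m * (16 / δ ^ 2)) • a β γ + RR n • v
        = (RR n • v + RR m • v') + RR m • ((16 / δ ^ 2) • a β γ - v') := by
      rw [smul_sub, smul_smul]; abel
    rw [e4]
    calc _ ≤ ‖RR n • v + RR m • v'‖ + ‖RR m • ((16 / δ ^ 2) • a β γ - v')‖ := norm_add_le _ _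
      _ ≤ _ := by
          rw [norm_smul, Real.norm_eq_abs, abs_of_nonneg (by linarith)]
          have := mul_le_mul_of_nonneg_left k5 (show 0 ≤ RR m by linarith)
          linarith
  nlinarith

end Pool.Agent.Helper83.SG
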