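import Pool.Agent.Helper83.SG6

/-!
# The Baire category argument
-/

namespace Pool.Agent.Helper83.SG

open Cardinal Metric Set

universe u

variable {V : Type u} [NormedAddCommGroup V] [NormedSpace ℝ V]

theorem euclid_aux (a b : ℝ) :
    ‖a • (EuclideanSpace.single (ULift.up 0) (1 : ℝ) : EuclideanSpace ℝ (ULift.{u} (Fin 2)))
      + b • (EuclideanSpace.single (ULift.up 1) (1 : ℝ))‖ ^ 2 = a ^ 2 + b ^ 2 := by
  rw [EuclideanSpace.norm_sq_eq, ← (Equiv.ulift.{u} (α := Fin 2)).symm.sum_comp, Fin.sum_univ_two]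
  simp

/-- a strong Gurarii space contains an isometric copy of the Euclidean plane -/
theorem exists_Eu (hV : IsStrongGurarii V) : ∃ x y : V, Eu x y := by
  let Z : Type u := EuclideanSpace ℝ (ULift.{u} (Fin 2))
  let e0 : Z := EuclideanSpace.single (ULift.up 0) (1 : ℝ)
  let e1 : Z := EuclideanSpace.single (ULift.up 1) (1 : ℝ)
  let S : ℝ × ℝ →ₗ[ℝ] Z :=
    (LinearMap.fst ℝ ℝ ℝ).smulRight e0 + (LinearMap.snd ℝ ℝ ℝ).smulRight e1
  let T : (⊥ : Submodule ℝ V) →ₗᵢ[ℝ] Z :=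
    { toLinearMap := 0
      norm_map' := by
        intro x
        have : x = 0 := Subsingleton.elim _ _
        simp [this] }
  obtain ⟨j, hj⟩ := ext_lemma hV ⊥ T S
  refine ⟨j (1, 0), j (0, 1), fun a b => ?_⟩
  have h1 := hj 0 (a, b)
  have h2 : j (a, b) = a • j (1, 0) + b • j (0, 1) := by
    rw [← map_smul, ← map_smul, ← map_add]
    congr 1
    ext <;> simp
  rw [map_zero, zero_add, ZeroMemClass.coe_zero, zero_add, h2] at h1
  rw [h1]
  have h3 : S (a, b) = a • e0 + b • e1 := by simp [S]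
  rw [h3]
  exact euclid_aux a b

theorem isClosed_Eu : IsClosed {p : V × V | Eu p.1 p.2} := by
  have : {p : V × V | Eu p.1 p.2} = ⋂ (a : ℝ) (b : ℝ), {p : V × V | ‖a • p.1 + b • p.2‖ ^ 2 = a ^ 2 + b ^ 2} := by
    ext p
    simp [Eu]
  rw [this]
  apply isClosed_iInter
  intro a
  apply isClosed_iInter
  intro b
  exact isClosed_eq (by fun_prop) continuous_const

theorem ep_abs (n : ℕ) : |ep n| = 1 := by
  rcases ep_cases n with h | h <;> rw [h] <;> norm_num

theorem w1_abs (n : ℕ) : |w1 n| ≤ 1 := by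
  apply abs_le_of_sq_le_sq _ (by norm_num)
  nlinarith [w_unit n, sq_nonneg (w2 n)]

theorem w2_abs (n : ℕ) : |w2 n| ≤ 1 := by
  apply abs_le_of_sq_le_sq _ (by norm_num)
  nlinarith [w_unit n, sq_nonneg (w1 n)]

theorem cen_close (x y x' y' : V) (n : ℕ) (η : ℝ) (hx : ‖x - x'‖ ≤ η) (hy : ‖y - y'‖ ≤ η) :
    ‖cen x y n - cen x' y' n‖ ≤ 2 * RR n * η := by
  have hR := RR_ge n
  have e : cen x y n - cen x' y' n = (ep n * RR n * w1 n) • (x - x') + (ep n * RR n * w2 n) • (y - y') := by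
    unfold cen
    rw [smul_sub, smul_sub]; abel
  rw [e]
  have h1 : ‖(ep n * RR n * w1 n) • (x - x')‖ ≤ RR n * η := by
    rw [norm_smul, Real.norm_eq_abs, abs_mul, abs_mul, ep_abs, one_mul, abs_of_nonneg (by linarith)]
    calc RR n * |w1 n| * ‖x - x'‖ ≤ RR n * 1 * η := by
          apply mul_le_mul _ hx (norm_nonneg _) (by linarith)
          exact mul_le_mul_of_nonneg_left (w1_abs n) (by linarith)
      _ = RR n * η := by ring
  have h2 : ‖(ep n * RR n * w2 n) • (y - y')‖ ≤ RR n * η := by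
    rw [norm_smul, Real.norm_eq_abs, abs_mul, abs_mul, ep_abs, one_mul, abs_of_nonneg (by linarith)]
    calc RR n * |w2 n| * ‖y - y'‖ ≤ RR n * 1 * η := by
          apply mul_le_mul _ hy (norm_nonneg _) (by linarith)
          exact mul_le_mul_of_nonneg_left (w2_abs n) (by linarith)
      _ = RR n * η := by ring
  calc _ ≤ _ := norm_add_le _ _
    _ ≤ 2 * RR n * η := by linarith

/-- The Baire category argument: `V` cannot be covered densely by countably many small sets. -/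
theorem baire_contra [CompleteSpace V] (hV : IsStrongGurarii V) (D : ℕ → Set V)
    (hD : Dense (⋃ k, D k))
    (hcard : ∀ k, ∃ κ : Cardinal.{u}, ℵ₀ ≤ κ ∧ #(D k) ≤ κ ∧
      (2 : Cardinal.{u}) ^ ((2 : Cardinal.{u}) ^ κ) < density V) : False := by
  let J : Set (V × V) := {p | Eu p.1 p.2}
  have hJc : IsClosed J := isClosed_Eu
  haveI : CompleteSpace J := hJc.completeSpace_coe
  obtain ⟨x₁, y₁, h₁⟩ := exists_Eu hV
  haveI : Nonempty J := ⟨⟨(x₁, y₁), h₁⟩⟩
  let A : ℕ → Set J := fun k => {p | ∃ z ∈ D k, ∀ n, ‖cen p.1.1 p.1.2 n - z‖ ≤ RR n - 3 / 4}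
  have hU : ⋃ k, closure (A k) = Set.univ := by
    rw [eq_univ_iff_forall]
    intro p
    obtain ⟨z, hz⟩ := served hV p.2
    obtain ⟨z', hz', hzz⟩ := Metric.dense_iff.mp hD z (1 / 4) (by norm_num)
    rw [mem_iUnion] at hzz
    obtain ⟨k, hk⟩ := hzz
    rw [mem_iUnion]
    refine ⟨k, subset_closure ⟨z', hk, fun n => ?_⟩⟩
    rw [mem_ball, dist_eq_norm] at hz'
    calc ‖cen p.1.1 p.1.2 n - z'‖ = ‖(cen p.1.1 p.1.2 n - z) - (z' - z)‖ := by congr 1; abel
      _ ≤ ‖cen p.1.1 p.1.2 n - z‖ + ‖z' - z‖ := norm_sub_le _ _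
      _ ≤ RR n - 3 / 4 := by linarith [hz n]
  obtain ⟨k, p₀, hp₀⟩ := nonempty_interior_of_iUnion_of_closed (fun k => isClosed_closure) hU
  rw [mem_interior_iff_mem_nhds, Metric.mem_nhds_iff] at hp₀
  obtain ⟨r₀, hr₀, hball⟩ := hp₀
  obtain ⟨κ, hκ, hDk, hd⟩ := hcard k
  apply main_contra hV (D k) hκ hDk hd p₀.2 r₀ hr₀
  intro x y hxy hx hy n m
  have hmem : (⟨(x, y), hxy⟩ : J) ∈ closure (A k) := by
    apply hball
    rw [mem_ball, Subtype.dist_eq, Prod.dist_eq, dist_eq_norm, dist_eq_norm]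
    exact max_lt hx hy
  have hRn := RR_ge n
  have hRm := RR_ge m
  set η : ℝ := 1 / (8 * (RR n + RR m)) with hη
  have hηpos : 0 < η := by rw [hη]; positivity
  obtain ⟨p', ⟨z, hz, hzn⟩, hd'⟩ := Metric.mem_closure_iff.mp hmem η hηpos
  rw [Subtype.dist_eq, Prod.dist_eq, dist_eq_norm, dist_eq_norm, max_lt_iff] at hd'
  have key : ∀ i, RR i ≤ RR n + RR m → ‖cen x y i - z‖ ≤ RR i - 1 / 2 := by
    intro i hi
    have h1 := cen_close x y p'.1.1 p'.1.2 i η hd'.1.le hd'.2.le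
    have h2 : 2 * RR i * η ≤ 1 / 4 := by
      rw [hη]
      have : 0 < RR n + RR m := by linarith
      rw [mul_one_div, div_le_div_iff₀ (by positivity) (by norm_num)]
      linarith
    calc ‖cen x y i - z‖ = ‖(cen x y i - cen p'.1.1 p'.1.2 i) + (cen p'.1.1 p'.1.2 i - z)‖ := by
          congr 1; abel
      _ ≤ ‖cen x y i - cen p'.1.1 p'.1.2 i‖ + ‖cen p'.1.1 p'.1.2 i - z‖ := norm_add_le _ _
      _ ≤ RR i - 1 / 2 := by linarith [hzn i]
  exact ⟨z, hz, key n (by linarith), key m (by linarith)⟩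

end Pool.Agent.Helper83.SG
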