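import Pool.Agent.Helper83.SG7

/-!
# Strong Gurarii spaces are not separable, and the cardinal arithmetic
-/

namespace Pool.Agent.Helper83.SG

open Cardinal Metric Set

universe u

variable {V : Type u} [NormedAddCommGroup V] [NormedSpace ℝ V]

/-- Every embedding of the plane has arbitrarily close perturbations incompatible with it. -/
theorem exists_perturbation (hV : IsStrongGurarii V) {x₀ y₀ : V} (h0 : Eu x₀ y₀) (r₀ : ℝ)
    (hr₀ : 0 < r₀) : ∃ (x y : V) (n m : ℕ), Eu x y ∧ ‖x - x₀‖ < r₀ ∧ ‖y - y₀‖ < r₀ ∧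
      RR n + RR m ≤ ‖cen x y n - cen x₀ y₀ m‖ := by
  obtain ⟨N, hN⟩ : ∃ N : ℕ, sq (2 * N) < r₀ / 8 := by
    obtain ⟨N, hN⟩ := exists_pow_lt_of_lt_one (show (0 : ℝ) < r₀ / 8 by positivity)
      (show (1 / 2 : ℝ) < 1 by norm_num)
    refine ⟨N, lt_of_le_of_lt ?_ hN⟩
    unfold sq
    exact pow_le_pow_of_le_one (by norm_num) (by norm_num) (by omega)
  set n : ℕ := 2 * N with hn
  set m : ℕ := n + 1 with hm
  have hepn : ep n = 1 := by
    unfold ep; rw [hn, pow_mul]; norm_num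
  have hepm : ep m = -1 := by
    unfold ep; rw [hm, hn, pow_succ, pow_mul]; norm_num
  have hRm := RR_ge m
  have hRn := RR_ge n
  set p₁ := w1 n with hp₁
  set p₂ := w2 n with hp₂
  set q₁ := w1 m with hq₁
  set q₂ := w2 m with hq₂
  have hp : p₁ ^ 2 + p₂ ^ 2 = 1 := w_unit n
  have hq : q₁ ^ 2 + q₂ ^ 2 = 1 := w_unit m
  have hpq : (p₁ - q₁) ^ 2 + (p₂ - q₂) ^ 2 ≤ (r₀ / 4) ^ 2 := by
    have h1 := w_close n
    have h2 : (2 * sq n) ^ 2 ≤ (r₀ / 4) ^ 2 := by
      apply pow_le_pow_left₀ (by have := sq_pos n; positivity)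
      linarith
    exact h1.trans h2
  set u : V := q₁ • x₀ + q₂ • y₀ with hu
  have hu1 : ‖u‖ = 1 := by
    have h1 : ‖u‖ ^ 2 = 1 := by rw [hu, h0, hq]
    exact (pow_eq_one_iff_of_nonneg (norm_nonneg u) two_ne_zero).mp h1
  obtain ⟨ψ, hψ, hψu⟩ := exists_dual_vector'' ℝ u
  rw [hu1] at hψu
  have hψu' : ψ u = 1 := by simpa using hψu
  -- `ψ` restricted to the plane is `q`
  set f₁ := ψ x₀ with hf₁
  set f₂ := ψ y₀ with hf₂
  have hf : f₁ ^ 2 + f₂ ^ 2 ≤ 1 := by
    have h1 := (Real.le_norm_self _).trans (ballDual_le ⟨ψ, hψ⟩ (f₁ • x₀ + f₂ • y₀))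
    simp only at h1
    rw [map_add, map_smul, map_smul, smul_eq_mul, smul_eq_mul, ← hf₁, ← hf₂] at h1
    have h2 := h0 f₁ f₂
    have h3 : 0 ≤ ‖f₁ • x₀ + f₂ • y₀‖ := norm_nonneg _
    by_contra hcon
    push Not at hcon
    nlinarith
  have hfu : q₁ * f₁ + q₂ * f₂ = 1 := by
    rw [hu, map_add, map_smul, map_smul, smul_eq_mul, smul_eq_mul] at hψu'
    exact hψu'
  have hfq : (f₁ - q₁) ^ 2 + (f₂ - q₂) ^ 2 ≤ 0 := by nlinarith
  have e1 : f₁ = q₁ := by nlinarith [sq_nonneg (f₁ - q₁), sq_nonneg (f₂ - q₂)]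
  have e2 : f₂ = q₂ := by nlinarith [sq_nonneg (f₁ - q₁), sq_nonneg (f₂ - q₂)]
  haveI : FiniteDimensional ℝ (Submodule.span ℝ ({x₀, y₀} : Set V)) :=
    FiniteDimensional.span_of_finite ℝ (by simp)
  obtain ⟨x, y, hxy⟩ := step_two hV (Submodule.span ℝ ({x₀, y₀} : Set V)) x₀ y₀ ψ hψ p₁ p₂
  have mx : x₀ ∈ Submodule.span ℝ ({x₀, y₀} : Set V) := Submodule.subset_span (by simp)
  have my : y₀ ∈ Submodule.span ℝ ({x₀, y₀} : Set V) := Submodule.subset_span (by simp)
  have g3 : |p₁ - q₁| ≤ r₀ / 4 := abs_le_of_sq_le_sq (by nlinarith) (by positivity)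
  have g4 : |p₂ - q₂| ≤ r₀ / 4 := abs_le_of_sq_le_sq (by nlinarith) (by positivity)
  refine ⟨x, y, n, m, ?_, ?_, ?_, ?_⟩
  · intro s t
    have h := hxy 0 (Submodule.zero_mem _) s t
    rw [zero_add, zero_add, map_zero, zero_add] at h
    have h1 : |s * p₁ + t * p₂| ≤ ‖s • x₀ + t • y₀‖ := by
      apply abs_le_of_sq_le_sq _ (norm_nonneg _)
      rw [h0]
      nlinarith [sq_nonneg (s * p₂ - t * p₁)]
    rw [h, max_eq_left h1, h0]
  · have h := hxy (-x₀) (Submodule.neg_mem _ mx) 1 0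
    have e1' : -x₀ + ((1 : ℝ) • x + (0 : ℝ) • y) = x - x₀ := by
      rw [one_smul, zero_smul, add_zero]; abel
    have e2' : -x₀ + ((1 : ℝ) • x₀ + (0 : ℝ) • y₀) = 0 := by
      rw [one_smul, zero_smul, add_zero]; abel
    rw [e1', e2', norm_zero, map_neg] at h
    rw [h]
    apply max_lt hr₀
    have e3 : -ψ x₀ + (1 * p₁ + 0 * p₂) = p₁ - q₁ := by rw [← hf₁, e1]; ring
    rw [e3]
    linarith
  · have h := hxy (-y₀) (Submodule.neg_mem _ my) 0 1
    have e1' : -y₀ + ((0 : ℝ) • x + (1 : ℝ) • y) = y - y₀ := by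
      rw [one_smul, zero_smul, zero_add]; abel
    have e2' : -y₀ + ((0 : ℝ) • x₀ + (1 : ℝ) • y₀) = 0 := by
      rw [one_smul, zero_smul, zero_add]; abel
    rw [e1', e2', norm_zero, map_neg] at h
    rw [h]
    apply max_lt hr₀
    have e3 : -ψ y₀ + (0 * p₁ + 1 * p₂) = p₂ - q₂ := by rw [← hf₂, e2]; ring
    rw [e3]
    linarith
  · have h := hxy (RR m • u) (Submodule.smul_mem _ _ (Submodule.add_mem _
      (Submodule.smul_mem _ _ mx) (Submodule.smul_mem _ _ my))) (RR n * p₁) (RR n * p₂)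
    have e3 : cen x y n - cen x₀ y₀ m = RR m • u + ((RR n * p₁) • x + (RR n * p₂) • y) := by
      unfold cen
      rw [hepn, hepm, one_mul, hu, smul_add, smul_smul, smul_smul]
      have e4 : ((-1 : ℝ) * RR m * w1 m) = -(RR m * q₁) := by rw [← hq₁]; ring
      have e5 : ((-1 : ℝ) * RR m * w2 m) = -(RR m * q₂) := by rw [← hq₂]; ring
      rw [e4, e5, neg_smul, neg_smul]
      abel
    rw [e3, h]
    refine le_trans ?_ (le_max_right _ _)
    rw [map_smul, hψu', smul_eq_mul, mul_one]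
    have e6 : RR m + (RR n * p₁ * p₁ + RR n * p₂ * p₂) = RR n + RR m := by
      have : RR n * p₁ * p₁ + RR n * p₂ * p₂ = RR n * (p₁ ^ 2 + p₂ ^ 2) := by ring
      rw [this, hp]; ring
    rw [e6]
    exact le_abs_self _

theorem exists_dense_card (V : Type u) [TopologicalSpace V] :
    ∃ s : Set V, Dense s ∧ #s = density V := by
  have : (sInf {κ : Cardinal.{u} | ∃ s : Set V, Dense s ∧ #s = κ}) ∈
      {κ : Cardinal.{u} | ∃ s : Set V, Dense s ∧ #s = κ} :=
    csInf_mem ⟨#(Set.univ : Set V), Set.univ, dense_univ, rfl⟩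
  exact this

/-- A strong Gurarii space is not separable. -/
theorem aleph0_lt_density [CompleteSpace V] (hV : IsStrongGurarii V) : ℵ₀ < density V := by
  by_contra hcon
  push Not at hcon
  obtain ⟨S, hS, hScard⟩ := exists_dense_card V
  have hcount : S.Countable := by
    rw [← Cardinal.le_aleph0_iff_set_countable, hScard]; exact hcon
  haveI : Countable S := hcount
  let J : Set (V × V) := {p | Eu p.1 p.2}
  have hJc : IsClosed J := isClosed_Eu
  haveI : CompleteSpace J := hJc.completeSpace_coe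
  obtain ⟨x₁, y₁, h₁⟩ := exists_Eu hV
  haveI : Nonempty J := ⟨⟨(x₁, y₁), h₁⟩⟩
  let A : S → Set J := fun z => {p | ∀ n, ‖cen p.1.1 p.1.2 n - z‖ ≤ RR n - 3 / 4}
  have hAc : ∀ z, IsClosed (A z) := by
    intro z
    have : A z = ⋂ n, {p : J | ‖cen p.1.1 p.1.2 n - z‖ ≤ RR n - 3 / 4} := by
      ext p; simp [A]
    rw [this]
    apply isClosed_iInter
    intro n
    apply isClosed_le _ continuous_const
    unfold cen
    fun_prop
  have hU : ⋃ z, A z = Set.univ := by
    rw [eq_univ_iff_forall]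
    intro p
    obtain ⟨z, hz⟩ := served hV p.2
    obtain ⟨z', hz', hzz⟩ := Metric.dense_iff.mp hS z (1 / 4) (by norm_num)
    rw [mem_iUnion]
    refine ⟨⟨z', hzz⟩, fun n => ?_⟩
    rw [mem_ball, dist_eq_norm] at hz'
    calc ‖cen p.1.1 p.1.2 n - z'‖ = ‖(cen p.1.1 p.1.2 n - z) - (z' - z)‖ := by congr 1; abel
      _ ≤ ‖cen p.1.1 p.1.2 n - z‖ + ‖z' - z‖ := norm_sub_le _ _
      _ ≤ RR n - 3 / 4 := by linarith [hz n]
  obtain ⟨z, p₀, hp₀⟩ := nonempty_interior_of_iUnion_of_closed hAc hU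
  rw [mem_interior_iff_mem_nhds, Metric.mem_nhds_iff] at hp₀
  obtain ⟨r₀, hr₀, hball⟩ := hp₀
  obtain ⟨x, y, n, m, hE, hx, hy, hnm⟩ := exists_perturbation hV p₀.2 r₀ hr₀
  have h1 : (⟨(x, y), hE⟩ : J) ∈ A z := by
    apply hball
    rw [mem_ball, Subtype.dist_eq, Prod.dist_eq, dist_eq_norm, dist_eq_norm]
    exact max_lt hx hy
  have h2 : p₀ ∈ A z := hball (mem_ball_self hr₀)
  have h3 := h1 n
  have h4 := h2 m
  have h5 : ‖cen x y n - cen p₀.1.1 p₀.1.2 m‖ ≤ (RR n - 3 / 4) + (RR m - 3 / 4) := by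
    calc _ = ‖(cen x y n - z) - (cen p₀.1.1 p₀.1.2 m - z)‖ := by congr 1; abel
      _ ≤ ‖cen x y n - z‖ + ‖cen p₀.1.1 p₀.1.2 m - z‖ := norm_sub_le _ _
      _ ≤ _ := add_le_add h3 h4
  linarith

/-- The density of a strong Gurarii space is not a strong limit of countable cofinality. -/
theorem main_theorem [CompleteSpace V] (hV : IsStrongGurarii V)
    (hcof : (density V).ord.cof = ℵ₀) : ∃ κ < density V, density V < 2 ^ κ := by
  by_contra hcon
  push Not at hcon
  have hunc := aleph0_lt_density hV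
  -- the density is a strong limit
  have hlim : ∀ κ < density V, (2 : Cardinal.{u}) ^ κ < density V := by
    intro κ hκ
    rcases lt_or_ge κ ℵ₀ with h | h
    · exact (power_lt_aleph0 (by exact_mod_cast (natCast_lt_aleph0 (n := 2))) h).trans hunc
    · apply lt_of_le_of_ne (hcon κ hκ)
      intro heq
      have h1 : κ < ((2 : Cardinal.{u}) ^ κ).ord.cof := lt_cof_ord_power h one_lt_two
      rw [heq, hcof] at h1
      exact absurd h1 (not_lt.mpr h)
  obtain ⟨S, hS, hScard⟩ := exists_dense_card V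
  -- split `S` in countably many small pieces
  set μ := density V with hμ
  have hcard : #μ.ord.ToType = #S := by rw [mk_ord_toType, hScard]
  obtain ⟨e⟩ := Cardinal.eq.mp hcard
  obtain ⟨c, hc, hc2⟩ := Order.exists_cof_eq μ.ord.ToType
  rw [Ordinal.cof_toType, hcof] at hc2
  have hccount : c.Countable := by rw [← Cardinal.le_aleph0_iff_set_countable, hc2]
  have hcne : c.Nonempty := by
    by_contra hne
    rw [Set.not_nonempty_iff_eq_empty] at hne
    rw [hne] at hc2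
    simp at hc2
    exact absurd hc2.symm aleph0_ne_zero
  obtain ⟨f, hf⟩ := hccount.exists_eq_range hcne
  let D : ℕ → Set V := fun k => (fun i : μ.ord.ToType => (e i : V)) '' Iic (f k)
  apply baire_contra hV D
  · have : S ⊆ ⋃ k, D k := by
      intro s hs
      obtain ⟨i, hi⟩ := e.surjective ⟨s, hs⟩
      obtain ⟨j, hj, hij⟩ := hc i
      rw [hf] at hj
      obtain ⟨k, hk⟩ := hj
      rw [mem_iUnion]
      refine ⟨k, i, ?_, ?_⟩
      · rw [mem_Iic, hk]; exact hij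
      · show (e i : V) = s
        rw [hi]
    exact hS.mono this
  · intro k
    have h1 : #(D k) < μ := by
      calc #(D k) ≤ #(Iic (f k)) := mk_image_le
        _ < μ := by
          have h2 : #(Iio (f k)) < μ := mk_Iio_toType_ord_lt _
          have h3 : Iic (f k) = insert (f k) (Iio (f k)) := Set.Iio_insert.symm
          rw [h3]
          calc #(insert (f k) (Iio (f k)) : Set _) ≤ #(Iio (f k)) + 1 := mk_insert_le
            _ < μ := add_lt_of_lt hunc.le h2 (one_lt_aleph0.trans hunc)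
    refine ⟨max ℵ₀ #(D k), le_max_left _ _, le_max_right _ _, ?_⟩
    exact hlim _ (hlim _ (max_lt hunc h1))

end Pool.Agent.Helper83.SG
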