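import Mathlib

/-!
# Strong Gurarii spaces and density characters (definitions)
-/

namespace Pool.Agent.Helper83.SG

open Cardinal

universe u

/-- `V` is a *strong Gurarii space*: whenever `X` is a linear subspace of a finite-dimensional
real normed space `Y` and `f : X → V` is a linear isometric embedding, there is a linear
isometric embedding `g : Y → V` with `g = f` on `X`. -/
def IsStrongGurarii (V : Type u) [NormedAddCommGroup V] [NormedSpace ℝ V] : Prop :=
  ∀ (Y : Type u) [NormedAddCommGroup Y] [NormedSpace ℝ Y] [FiniteDimensional ℝ Y]
    (X : Submodule ℝ Y) (f : X →ₗᵢ[ℝ] V), ∃ g : Y →ₗᵢ[ℝ] V, ∀ x : X, g (x : Y) = f x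

/-- The *density* of a topological space: the least cardinality of a dense subset. -/
noncomputable def density (V : Type u) [TopologicalSpace V] : Cardinal.{u} :=
  sInf {κ | ∃ s : Set V, Dense s ∧ #s = κ}

end Pool.Agent.Helper83.SG
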